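import Pool.Agent.Lib.MP_0087d5_lcQI.EndA

/-!
# The end of the isolation theorem: two walks with the same interface and different vectors
-/

set_option autoImplicit false

namespace QIS

open Finset MTC

variable {V : Type}

/-- the vector of the `i`-th edge of the walk `q` -/
def egB [DecidableEq V] (q : ℕ → V) (i : ℕ) (u v : V) : ℤ :=
  (if q i = u ∧ q (i + 1) = v then 1 else 0) + (if q i = v ∧ q (i + 1) = u then 1 else 0)

/-- the short walk -/
def qq (x y z : V) : ℕ → V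
  | 0 => x
  | 1 => y
  | 2 => z
  | 3 => y
  | 4 => x
  | _ => y

private theorem eg_big [DecidableEq V] (q : ℕ → V) (N : ℕ) (hN : 4 ≤ N) (hper : ∀ i, q (N + i) = q i)
    (hinj : ∀ i j, i < N → j < N → q i = q j → i = j) :
    ∑ i ∈ range (N + 1), (-1 : ℤ) ^ i * egB q i (q 1) (q 2) = -1 := by
  rw [sum_eq_single 1]
  · have h1 : ¬ (q 1 = q 2 ∧ q (1 + 1) = q 1) := fun h => by
      have := hinj 1 2 (by omega) (by omega) h.1
      omega
    unfold egB
    rw [if_pos ⟨rfl, rfl⟩, if_neg h1]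
    norm_num
  · intro i hi hi1
    have hi' : i ≤ N := by
      have := mem_range.1 hi
      omega
    have h1 : ¬ (q i = q 1 ∧ q (i + 1) = q 2) := by
      rintro ⟨h, -⟩
      rcases Nat.lt_or_ge i N with h2 | h2
      · exact hi1 (hinj i 1 h2 (by omega) h)
      · have h3 : i = N + 0 := by omega
        rw [h3, hper 0] at h
        have := hinj 0 1 (by omega) (by omega) h
        omega
    have h2 : ¬ (q i = q 2 ∧ q (i + 1) = q 1) := by
      rintro ⟨h, h'⟩
      rcases Nat.lt_or_ge i N with h2 | h2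
      · have h3 := hinj i 2 h2 (by omega) h
        rw [h3] at h'
        have := hinj 3 1 (by omega) (by omega) h'
        omega
      · have h3 : i = N + 0 := by omega
        rw [h3, hper 0] at h
        have := hinj 0 2 (by omega) (by omega) h
        omega
    unfold egB
    rw [if_neg h1, if_neg h2]
    norm_num
  · intro h
    exact absurd (mem_range.2 (by omega)) h

private theorem eg_small [DecidableEq V] (x y z : V) (hxy : x ≠ y) (hyz : y ≠ z) (hxz : x ≠ z) :
    ∑ i ∈ range 5, (-1 : ℤ) ^ i * egB (qq x y z) i y z = 0 := by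
  simp only [sum_range_succ, sum_range_zero, egB, qq]
  simp [hxy, hyz, hxz, hxy.symm, hyz.symm, hxz.symm]

/-- two different perfect matchings of least weight give two walks with the same interface and different vectors -/
theorem end_core [Fintype V] [DecidableEq V] (A : V → V → Prop) (hA : ∀ a, ¬ A a a) (w : V → V → ℕ) (L : Finset (Finset V)) (hL : Lam L)
    (ht : ∀ S ∈ L, ∀ f, IsMin A w f → (S.filter fun u => f u ∉ S).card = 1) (f g : V → V) (hf : IsMin A w f) (hg : IsMin A w g) (hfg : f ≠ g) :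
    ∃ (N : ℕ) (q q' : ℕ → V), 4 ≤ N ∧ N ≤ Fintype.card V ∧ Even N ∧ (∀ i, HG A w (q i) (q (i + 1))) ∧
      (∀ i, i < 5 → HG A w (q' i) (q' (i + 1))) ∧
      (∀ T ∈ L, ∀ r s, 1 ≤ r → r ≤ s → s ≤ N → q (r - 1) ∉ T → (∀ i, r ≤ i → i ≤ s → q i ∈ T) → q (s + 1) ∉ T → Even (s - r)) ∧
      (∀ T ∈ L, ∀ r s, 1 ≤ r → r ≤ s → s ≤ 4 → q' (r - 1) ∉ T → (∀ i, r ≤ i → i ≤ s → q' i ∈ T) → q' (s + 1) ∉ T → Even (s - r)) ∧
      (∀ T ∈ L, (q 0 ∈ T ∧ q 1 ∈ T) ∨ (q N ∈ T ∧ q (N + 1) ∈ T) → ∀ i, q i ∈ T) ∧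
      (∀ T ∈ L, (q' 0 ∈ T ∧ q' 1 ∈ T) ∨ (q' 4 ∈ T ∧ q' 5 ∈ T) → ∀ i, q' i ∈ T) ∧
      q 0 = q' 0 ∧ q 1 = q' 1 ∧ q 2 = q' 2 ∧ q N = q' 4 ∧ q (N + 1) = q' 5 ∧
      ∃ u v, ∑ i ∈ range (N + 1), (-1 : ℤ) ^ i * egB q i u v ≠ ∑ i ∈ range 5, (-1 : ℤ) ^ i * egB q' i u v := by
  classical
  have hnf : ∀ f, IsMin A w f → ∀ u, f u ≠ u := fun f hf u h => hA u (by
    have := hf.1.2 u
    rwa [h] at this)
  obtain ⟨v0, hv0⟩ := Function.ne_iff.1 hfg
  obtain ⟨v, hv, htop⟩ := exists_top f g hf.1.1 hg.1.1 L hL v0 hv0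
  -- exchange `f` and `g` in the second case
  wlog H : ∀ T ∈ L, v ∈ T → g v ∈ T → ∀ i, kk f g v i ∈ T with H'
  · rcases htop with h | h
    · exact absurd h H
    · exact H' A hA w L hL ht g f hg hf hfg.symm hnf v0 hv0.symm v hv.symm (Or.inl h) h
  clear htop
  obtain ⟨N, hN, hNe, hper, hinj⟩ := kk_cycle f g hf.1.1 hg.1.1 (hnf f hf) (hnf g hg) v hv
  have k0 : kk f g v 0 = g v := kk_zero f g v
  have k1 : kk f g v 1 = v := kk_one f g hg.1.1 v
  have k2 : kk f g v 2 = f v := kk_two f g hg.1.1 v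
  have kN : kk f g v N = g v := by
    rw [← k0, ← hper 0, add_zero]
  have kN1 : kk f g v (N + 1) = v := by rw [hper 1, k1]
  have hfs : ∀ f, IsMin A w f → ∀ u, HG A w u (f u) := fun f hf u => ⟨f, hf, rfl⟩
  have hfs' : ∀ f, IsMin A w f → ∀ u, HG A w (f u) u := fun f hf u => ⟨f, hf, hf.1.1 u⟩
  refine ⟨N, kk f g v, qq (g v) v (f v), hN, ?_, hNe, ?_, ?_, ?_, ?_, ?_, ?_, k0, k1, k2, kN, kN1, v, f v, ?_⟩
  · have h1 : (range N).card ≤ (univ : Finset V).card :=
      card_le_card_of_injOn (kk f g v) (fun _ _ => mem_coe.2 (mem_univ _)) fun i hi j hj h =>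
        hinj i j (mem_range.1 (mem_coe.1 hi)) (mem_range.1 (mem_coe.1 hj)) h
    rwa [card_range] at h1
  · intro i
    by_cases hi : Even i
    · rw [kk_even f g v hi]
      exact hfs g hg _
    · rw [kk_odd f g v hi]
      exact hfs f hf _
  · intro i hi
    interval_cases i
    · exact hfs' g hg v
    · exact hfs f hf v
    · exact hfs' f hf v
    · exact hfs g hg v
    · exact hfs' g hg v
  · intro T hT r s hr hrs hs h3 h4 h6
    exact kk_run f g hf.1.1 hg.1.1 v N hper hinj T (ht T hT f hf) (ht T hT g hg) r s hr hrs hs h3 (h4 r le_rfl hrs) (h4 s hrs le_rfl) h6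
  · intro T hT r s hr hrs hs h3 h4 h6
    by_cases h7 : v ∈ T ∧ g v ∈ T
    · exfalso
      have h8 : f v ∈ T := by
        rw [← k2]
        exact H T hT h7.1 h7.2 2
      have h9 : ∀ i, qq (g v) v (f v) i ∈ T := by
        intro i
        rcases i with _ | _ | _ | _ | _ | _
        · exact h7.2
        · exact h7.1
        · exact h8
        · exact h7.1
        · exact h7.2
        · exact h7.1
      exact h3 (h9 _)
    · by_cases hv1 : v ∈ T
      · have hg1 : g v ∉ T := fun h => h7 ⟨hv1, h⟩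
        have hs3 : s ≤ 3 := by
          by_contra hcon
          have h8 : s = 4 := by omega
          rw [h8] at h4
          exact hg1 (h4 4 (by omega) le_rfl)
        -- the run starts at 1 or 3
        have hr2 : r ≠ 2 := by
          rintro rfl
          exact h3 hv1
        have hs2 : s ≠ 2 := by
          rintro rfl
          exact h6 hv1
        have h8 : (r = 1 ∧ s = 1) ∨ (r = 1 ∧ s = 3) ∨ (r = 3 ∧ s = 3) := by omega
        rcases h8 with ⟨rfl, rfl⟩ | ⟨rfl, rfl⟩ | ⟨rfl, rfl⟩ <;> decide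
      · have hr1 : r ≠ 1 := by
          rintro rfl
          exact hv1 (h4 1 le_rfl hrs)
        have hr3 : ¬ (r ≤ 3 ∧ 3 ≤ s) := fun h => hv1 (h4 3 h.1 h.2)
        have h8 : (r = 2 ∧ s = 2) ∨ (r = 4 ∧ s = 4) := by omega
        rcases h8 with ⟨rfl, rfl⟩ | ⟨rfl, rfl⟩ <;> decide
  · rintro T hT (⟨h1, h2⟩ | ⟨h1, h2⟩) i
    · exact H T hT (by rwa [← k1]) (by rwa [← k0]) i
    · exact H T hT (by rwa [← kN1]) (by rwa [← kN]) i
  · intro T hT h1
    have h7 : v ∈ T ∧ g v ∈ T := by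
      rcases h1 with ⟨h1, h2⟩ | ⟨h1, h2⟩
      · exact ⟨h2, h1⟩
      · exact ⟨h2, h1⟩
    have h8 : f v ∈ T := by
      rw [← k2]
      exact H T hT h7.1 h7.2 2
    intro i
    rcases i with _ | _ | _ | _ | _ | _
    · exact h7.2
    · exact h7.1
    · exact h8
    · exact h7.1
    · exact h7.2
    · exact h7.1
  · have h1 := eg_big (kk f g v) N hN hper hinj
    rw [k1, k2] at h1
    rw [h1, eg_small (g v) v (f v) (hnf g hg v) (fun h => hnf f hf v h.symm) (fun h => hv h.symm)]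
    norm_num

end QIS
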