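import Pool.Agent.Lib.MP_0087d5_lcQI.Stg
import Pool.Agent.Lib.MP_0087d5_lcQI.EndB

/-!
# The isolation theorem

`log₂ n` weight functions `r i ^ e u v % m`, one after the other, isolate a perfect matching in every graph on at most `n`
vertices; each `r i` has to avoid a set of at most `n ^ 122` numbers which depends only on the parameters before.
-/

set_option autoImplicit false
set_option linter.unusedSectionVars false

namespace QIS

open Finset MTC

section
variable {V : Type} [Fintype V] [DecidableEq V]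

/-- **The end**: if the vectors of the pieces of size at most the number of the vertices are determined by the interface, there is
only one perfect matching of least weight. -/
theorem end_one {A : V → V → Prop} (hA : ∀ a, ¬ A a a) {w : V → V → ℕ} {L : Finset (Finset V)} {M : ℕ}
    (h : Good A w L M) (hM : Fintype.card V ≤ M) {f g : V → V} (hf : IsMin A w f) (hg : IsMin A w g) : f = g := by
  by_contra hfg
  obtain ⟨N, q, q', n1, n2, n3, a1, a2, o1, o2, g1, g2, e0, e1, e2, e3, e4, u, v, huv⟩ :=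
    end_core A hA w L h.lam (fun S hS => (h.tight S hS).2) f g hf hg hfg
  have odd_of : ∀ (p : ℕ → V) (K : ℕ), (∀ T ∈ L, ∀ r s, 1 ≤ r → r ≤ s → s ≤ K → p (r - 1) ∉ T →
      (∀ i, r ≤ i → i ≤ s → p i ∈ T) → p (s + 1) ∉ T → Even (s - r)) → ∀ T ∈ L, ∀ r s, 0 ≤ r → r < s → s ≤ K →
      p r ∉ T → (∀ i, r < i → i ≤ s → p i ∈ T) → p (s + 1) ∉ T → Odd (r + s) := by
    intro p K ho T hT r s _ hrs hs h1 h2 h3
    obtain ⟨k, hk⟩ := ho T hT (r + 1) s (by omega) hrs hs (by rw [Nat.add_sub_cancel]; exact h1)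
      (fun i hi1 hi2 => h2 i (by omega) hi2) h3
    exact ⟨r + k, by omega⟩
  have hP : Pc (HG A w) L q 0 0 0 N :=
    { ac := le_rfl
      cd := le_rfl
      db := by omega
      adj := fun i _ _ => a1 i
      odd := odd_of q N o1
      out := fun T hT h1 i _ _ => g1 T hT h1 i
      hol := Gd.refl L q 0 }
  have hP' : Pc (HG A w) L q' 0 0 0 4 :=
    { ac := le_rfl
      cd := le_rfl
      db := by omega
      adj := fun i _ hi => a2 i (by omega)
      odd := odd_of q' 4 o2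
      out := fun T hT h1 i _ _ => g2 T hT h1 i
      hol := Gd.refl L q' 0 }
  have hpar : decide (Even N) = decide (Even 4) := by
    rw [decide_eq_decide]
    exact ⟨fun _ => by decide, fun _ => n3⟩
  have hi : itf q 0 0 0 N = itf q' 0 0 0 4 := by
    unfold itf
    have e5 : q (0 + 1) = q' (0 + 1) := e1
    have e6 : q' (4 + 1) = q' 5 := rfl
    rw [hpar, e5, e0, e3, e4, e6]
  have hv := h.hm q q' 0 0 0 N 0 0 0 4 hP hP' (by omega) (by omega) hi
  refine huv ?_
  have h1 : ∀ p : ℕ → V, ∀ K, ∑ i ∈ range K, (-1 : ℤ) ^ i * egB p i u v = pv p 0 0 0 K u v := by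
    intro p K
    unfold pv
    rw [av_self, zero_add]
    unfold av
    rw [range_eq_Ico]
    rfl
  have h2 : egB q N u v = egB q' 4 u v := by
    unfold egB
    rw [e3, e4]
  rw [sum_range_succ, sum_range_succ (n := 4), h1, h1, hv, h2, n3.neg_one_pow]
  norm_num

/-- there is a perfect matching of least weight -/
theorem exists_min {A : V → V → Prop} (w : V → V → ℕ) (hM : ∃ f, IsPM A f) : ∃ f, IsMin A w f := by
  classical
  obtain ⟨f0, h0⟩ := hM
  obtain ⟨f, hf, hmin⟩ := exists_min_image (univ.filter fun f : V → V => IsPM A f) (tw w)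
    ⟨f0, mem_filter.2 ⟨mem_univ _, h0⟩⟩
  exact ⟨f, (mem_filter.1 hf).2, fun g hg => hmin g (mem_filter.2 ⟨mem_univ _, hg⟩)⟩

end

open Classical in
/-- **Isolation, for most parameters.** -/
theorem iso_most : ∃ C : ℕ, ∀ (V : Type) [Fintype V] [DecidableEq V] (n : ℕ), 2 ≤ n → Fintype.card V ≤ n →
    ∀ e : V → V → ℕ, Lab n e → ∀ m : ℕ, m.Prime → ∀ K : ℕ, n * m < K →
    ∀ A : V → V → Prop, (∀ a b, A a b → A b a) → (∀ a, ¬ A a a) → (∃ f, MTC.IsPM A f) →
    ∃ B : ℕ → (ℕ → ℕ) → Finset ℕ, (∀ i r, (B i r).card ≤ n ^ C) ∧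
      (∀ i r r', (∀ j < i, r j = r' j) → B i r = B i r') ∧
      ∀ r : ℕ → ℕ, (∀ i < Nat.clog 2 n, r i < m ∧ r i ∉ B i r) → ∃ f, MTC.IsPM A f ∧
        ∀ f', MTC.IsPM A f' → f' ≠ f →
          MTC.tw (WS e K m r (Nat.clog 2 n)) f < MTC.tw (WS e K m r (Nat.clog 2 n)) f' := by
  refine ⟨122, ?_⟩
  intro V _ _ n hn hV e he m hmp K hK A _ hA2 hM
  -- the bad sets
  have hst : ∀ (w : V → V → ℕ) (M : ℕ), ∃ B : Finset ℕ, B.card ≤ n ^ 122 ∧
      ((∃ L, Good A w L M) → (∀ a b, w a b = w b a) → 1 ≤ M → M ≤ n → ∀ ρ < m, ρ ∉ B →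
        ∃ L', Good A (fun a b => K * w a b + ρ ^ e a b % m) L' (2 * M)) := by
    intro w M
    by_cases h : (∃ L, Good A w L M) ∧ (∀ a b, w a b = w b a) ∧ 1 ≤ M ∧ M ≤ n
    · obtain ⟨⟨L, hL⟩, h1, h2, h3⟩ := h
      obtain ⟨B, hB1, hB2⟩ := stage hn hV he hmp hK hA2 hM h1 hL h2 h3
      exact ⟨B, hB1, fun _ _ _ _ => hB2⟩
    · exact ⟨∅, by simp, fun h1 h2 h3 h4 => absurd ⟨h1, h2, h3, h4⟩ h⟩
  choose Bf hB1 hB2 using hst
  refine ⟨fun i r => Bf (WS e K m r i) (2 ^ i), fun i r => hB1 _ _, fun i r r' h => ?_, fun r hr => ?_⟩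
  · dsimp only
    rw [WS_congr e K m i h]
  · have hG : ∀ i ≤ Nat.clog 2 n, ∃ L, Good A (WS e K m r i) L (2 ^ i) := by
      intro i
      induction i with
      | zero =>
        intro _
        obtain ⟨L, hL⟩ := good_zero hA2 hM
        exact ⟨L, hL⟩
      | succ i ih =>
        intro hi
        have h1 : 2 ^ i ≤ n := by
          by_contra h2
          have h3 : Nat.clog 2 n ≤ i := Nat.clog_le_of_le_pow (by omega)
          omega
        obtain ⟨L', hL'⟩ := hB2 (WS e K m r i) (2 ^ i) (ih (by omega)) (WS_symm he K m r i) Nat.one_le_two_pow h1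
          (r i) (hr i (by omega)).1 (hr i (by omega)).2
        refine ⟨L', ?_⟩
        rw [pow_succ, mul_comm (2 ^ i) 2]
        exact hL'
    obtain ⟨L, hL⟩ := hG _ le_rfl
    have hcl : n ≤ 2 ^ Nat.clog 2 n := Nat.le_pow_clog (by norm_num) n
    obtain ⟨f, hf⟩ := exists_min (WS e K m r (Nat.clog 2 n)) hM
    refine ⟨f, hf.1, fun f' hf' hne => ?_⟩
    rcases Nat.lt_or_ge (MTC.tw (WS e K m r (Nat.clog 2 n)) f) (MTC.tw (WS e K m r (Nat.clog 2 n)) f') with h | h
    · exact h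
    · exfalso
      refine hne (end_one hA2 hL (hV.trans hcl) ⟨hf', fun g hg => h.trans (hf.2 g hg)⟩ hf)

/-- **Isolation.** -/
theorem iso_weights : ∃ C : ℕ, ∀ (V : Type) [Fintype V] [DecidableEq V] (n : ℕ), 2 ≤ n → Fintype.card V ≤ n →
    ∀ e : V → V → ℕ, Lab n e → ∀ m : ℕ, m.Prime → n ^ C ≤ m → ∀ K : ℕ, n * m < K →
    ∀ A : V → V → Prop, (∀ a b, A a b → A b a) → (∀ a, ¬ A a a) → (∃ f, MTC.IsPM A f) →
    ∃ r : ℕ → ℕ, (∀ i, r i < m) ∧ ∃ f, MTC.IsPM A f ∧ ∀ f', MTC.IsPM A f' → f' ≠ f →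
      MTC.tw (WS e K m r (Nat.clog 2 n)) f < MTC.tw (WS e K m r (Nat.clog 2 n)) f' := by
  classical
  obtain ⟨C, hC⟩ := iso_most
  refine ⟨C + 1, ?_⟩
  intro V _ _ n hn hV e he m hmp hm K hK A hA1 hA2 hM
  obtain ⟨B, hB1, hB2, hB3⟩ := hC V n hn hV e he m hmp K hK A hA1 hA2 hM
  have hlt : n ^ C < m := (Nat.pow_lt_pow_right (by omega) (by omega)).trans_le hm
  have hex : ∀ i r, ∃ ρ, ρ < m ∧ ρ ∉ B i r := by
    intro i r
    by_contra h
    push Not at h
    have h1 : range m ⊆ B i r := fun ρ hρ => h ρ (mem_range.1 hρ)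
    have h2 := card_le_card h1
    rw [card_range] at h2
    have h3 := hB1 i r
    omega
  -- the parameters, one after the other
  have hr : ∀ s : ℕ, ∃ r : ℕ → ℕ, (∀ i, r i < m) ∧ ∀ i < s, r i ∉ B i r := by
    intro s
    induction s with
    | zero => exact ⟨fun _ => 0, fun _ => hmp.pos, fun i hi => absurd hi (Nat.not_lt_zero i)⟩
    | succ s ih =>
      obtain ⟨r, h1, h2⟩ := ih
      obtain ⟨ρ, h3, h4⟩ := hex s r
      refine ⟨fun i => if i = s then ρ else r i, ?_, ?_⟩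
      · intro i
        dsimp only
        split_ifs
        · exact h3
        · exact h1 i
      · intro i hi
        have h5 : B i (fun i => if i = s then ρ else r i) = B i r := by
          refine hB2 i _ _ fun j hj => ?_
          exact if_neg (by omega)
        rw [h5]
        change (if i = s then ρ else r i) ∉ B i r
        by_cases h6 : i = s
        · rw [if_pos h6, h6]
          exact h4
        · rw [if_neg h6]
          exact h2 i (by omega)
  obtain ⟨r, h1, h2⟩ := hr (Nat.clog 2 n)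
  exact ⟨r, h1, hB3 r fun i hi => ⟨h1 i, h2 i hi⟩⟩

end QIS
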