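import Pool.Agent.Lib.MP_0087d5_lcMT.W2

/-!
# Alternating cycles of two perfect matchings (for the end of the isolation theorem)

`kk f g v`: the alternating walk `g v, v, f v, g (f v), ...`. If `f`, `g` are involutions without fixed points and `f v ≠ g v` it is a simple cycle of even length `N ≥ 4`
(`kk_cycle`). If each member of a laminar family is crossed once by `f` and once by `g`, the cycle has a top edge (`exists_top`): after a rotation (and an exchange of
`f` and `g`) every member which contains `v` and `g v` contains the whole cycle. A run of the cycle in a member which is left at both ends is odd (`kk_run`).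
-/

set_option autoImplicit false

namespace QIS

open Finset MTC

variable {V : Type}

/-- the alternating walk `g v, v, f v, g (f v), ...` -/
def kk (f g : V → V) (v : V) : ℕ → V
  | 0 => g v
  | i + 1 => if Even i then g (kk f g v i) else f (kk f g v i)

theorem kk_zero (f g : V → V) (v : V) : kk f g v 0 = g v := rfl

theorem kk_even (f g : V → V) (v : V) {i : ℕ} (hi : Even i) : kk f g v (i + 1) = g (kk f g v i) := by
  show (if Even i then g (kk f g v i) else f (kk f g v i)) = _
  rw [if_pos hi]

theorem kk_odd (f g : V → V) (v : V) {i : ℕ} (hi : ¬ Even i) : kk f g v (i + 1) = f (kk f g v i) := by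
  show (if Even i then g (kk f g v i) else f (kk f g v i)) = _
  rw [if_neg hi]

theorem kk_one (f g : V → V) (hg : ∀ u, g (g u) = u) (v : V) : kk f g v 1 = v := by
  rw [show (1 : ℕ) = 0 + 1 from rfl, kk_even f g v (i := 0) ⟨0, rfl⟩, kk_zero, hg]

theorem kk_two (f g : V → V) (hg : ∀ u, g (g u) = u) (v : V) : kk f g v 2 = f v := by
  rw [show (2 : ℕ) = 1 + 1 from rfl, kk_odd f g v (i := 1) (by decide), kk_one f g hg]

/-- one step back, for two positions of the same parity -/
private theorem kk_back (f g : V → V) (hf : ∀ u, f (f u) = u) (hg : ∀ u, g (g u) = u) (v : V) (i j : ℕ) (hij : (Even i ↔ Even j))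
    (h : kk f g v (i + 1) = kk f g v (j + 1)) : kk f g v i = kk f g v j := by
  by_cases hi : Even i
  · rw [kk_even f g v hi, kk_even f g v (hij.1 hi)] at h
    rw [← hg (kk f g v i), h, hg]
  · rw [kk_odd f g v hi, kk_odd f g v (fun h' => hi (hij.2 h'))] at h
    rw [← hf (kk f g v i), h, hf]

private theorem kk_backs (f g : V → V) (hf : ∀ u, f (f u) = u) (hg : ∀ u, g (g u) = u) (v : V) (i t : ℕ) (ht : Even t)
    (h : kk f g v (i + t) = kk f g v i) : kk f g v t = kk f g v 0 := by
  induction i with
  | zero => rwa [zero_add] at h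
  | succ i ih =>
    apply ih
    refine kk_back f g hf hg v (i + t) i ?_ ?_
    · rw [Nat.even_add]
      exact ⟨fun h' => h'.2 ht, fun h' => ⟨fun _ => ht, fun _ => h'⟩⟩
    · rw [show i + t + 1 = i + 1 + t from by omega]
      exact h

/-- two positions of different parity never carry the same vertex -/
private theorem kk_ne_odd (f g : V → V) (hf : ∀ u, f (f u) = u) (hg : ∀ u, g (g u) = u) (hf' : ∀ u, f u ≠ u) (hg' : ∀ u, g u ≠ u) (v : V) :
    ∀ (t i : ℕ), kk f g v i ≠ kk f g v (i + (2 * t + 1)) := by
  intro t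
  induction t with
  | zero =>
    intro i h
    rw [show i + (2 * 0 + 1) = i + 1 from by omega] at h
    by_cases hi : Even i
    · rw [kk_even f g v hi] at h
      exact hg' _ h.symm
    · rw [kk_odd f g v hi] at h
      exact hf' _ h.symm
  | succ t ih =>
    intro i h
    apply ih (i + 1)
    have hp : Even (i + (2 * t + 2)) ↔ Even i := by
      rw [Nat.even_add]
      exact ⟨fun h' => h'.2 ⟨t + 1, by omega⟩, fun h' => ⟨fun _ => ⟨t + 1, by omega⟩, fun _ => h'⟩⟩
    have e1 : i + (2 * (t + 1) + 1) = i + (2 * t + 2) + 1 := by omega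
    rw [e1] at h
    have e2 : i + 1 + (2 * t + 1) = i + (2 * t + 2) := by omega
    rw [e2]
    by_cases hi : Even i
    · rw [kk_even f g v (hp.2 hi)] at h
      rw [kk_even f g v hi, h, hg]
    · rw [kk_odd f g v (fun h' => hi (hp.1 h'))] at h
      rw [kk_odd f g v hi, h, hf]

private theorem kk_forth (f g : V → V) (v : V) (N : ℕ) (hN : Even N) (h : kk f g v N = kk f g v 0) (i : ℕ) :
    kk f g v (N + i) = kk f g v i := by
  induction i with
  | zero => exact h
  | succ i ih =>
    have hp : Even (N + i) ↔ Even i := by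
      rw [Nat.even_add]
      exact ⟨fun h' => h'.1 hN, fun h' => ⟨fun _ => h', fun _ => hN⟩⟩
    rw [show N + (i + 1) = (N + i) + 1 from by omega]
    by_cases hi : Even i
    · rw [kk_even f g v (hp.2 hi), kk_even f g v hi, ih]
    · rw [kk_odd f g v (fun h' => hi (hp.1 h')), kk_odd f g v hi, ih]

/-- the alternating walk is a simple cycle of even length at least 4 -/
theorem kk_cycle [Finite V] (f g : V → V) (hf : ∀ u, f (f u) = u) (hg : ∀ u, g (g u) = u) (hf' : ∀ u, f u ≠ u) (hg' : ∀ u, g u ≠ u)
    (v : V) (hv : f v ≠ g v) :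
    ∃ N : ℕ, 4 ≤ N ∧ Even N ∧ (∀ i, kk f g v (N + i) = kk f g v i) ∧
      ∀ i j, i < N → j < N → kk f g v i = kk f g v j → i = j := by
  classical
  have hex : ∃ p : ℕ, 0 < p ∧ kk f g v (2 * p) = kk f g v 0 := by
    obtain ⟨i, j, hij, h⟩ := Finite.exists_ne_map_eq_of_infinite (fun i : ℕ => kk f g v (2 * i))
    wlog hlt : i < j with H
    · exact H f g hf hg hf' hg' v hv j i hij.symm h.symm (by omega)
    refine ⟨j - i, by omega, ?_⟩
    refine kk_backs f g hf hg v (2 * i) (2 * (j - i)) ⟨j - i, by omega⟩ ?_
    rw [show 2 * i + 2 * (j - i) = 2 * j from by omega]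
    exact h.symm
  obtain ⟨hp0, hp1⟩ := Nat.find_spec hex
  have hmin := fun (m : ℕ) (hm : m < Nat.find hex) => Nat.find_min hex hm
  set p := Nat.find hex with hp
  have hp2 : p ≠ 1 := by
    intro h1
    rw [h1, mul_one, kk_two f g hg, kk_zero] at hp1
    exact hv hp1
  refine ⟨2 * p, by omega, ⟨p, by omega⟩, kk_forth f g v (2 * p) ⟨p, by omega⟩ hp1, ?_⟩
  have key : ∀ i j, i < 2 * p → j < 2 * p → i < j → kk f g v i ≠ kk f g v j := by
    intro i j hi hj hlt h
    rcases Nat.even_or_odd (j - i) with he | ho
    · obtain ⟨t, ht⟩ := he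
      refine hmin t (by omega) ⟨by omega, ?_⟩
      refine kk_backs f g hf hg v i (2 * t) ⟨t, by omega⟩ ?_
      rw [show i + 2 * t = j from by omega]
      exact h.symm
    · obtain ⟨t, ht⟩ := ho
      refine kk_ne_odd f g hf hg hf' hg' v t i ?_
      rw [show i + (2 * t + 1) = j from by omega]
      exact h
  intro i j hi hj h
  rcases lt_trichotomy i j with h1 | h1 | h1
  · exact absurd h (key i j hi hj h1)
  · exact h1
  · exact absurd h.symm (key j i hj hi h1)

/-- crossed once: the crossing vertex is unique -/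
private theorem cr_unique [DecidableEq V] {f : V → V} {T : Finset V} (h : (T.filter fun u => f u ∉ T).card = 1) {x y : V} (hx : x ∈ T)
    (hx' : f x ∉ T) (hy : y ∈ T) (hy' : f y ∉ T) : x = y :=
  (Finset.card_le_one.1 h.le) x (mem_filter.2 ⟨hx, hx'⟩) y (mem_filter.2 ⟨hy, hy'⟩)

/-- the top edge -/
theorem exists_top [Fintype V] [DecidableEq V] (f g : V → V) (hf : ∀ u, f (f u) = u) (hg : ∀ u, g (g u) = u) (L : Finset (Finset V)) (hL : Lam L)
    (v0 : V) (hv0 : f v0 ≠ g v0) :
    ∃ v, f v ≠ g v ∧ ((∀ T ∈ L, v ∈ T → g v ∈ T → ∀ i, kk f g v i ∈ T) ∨ (∀ T ∈ L, v ∈ T → f v ∈ T → ∀ i, kk g f v i ∈ T)) := by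
  classical
  let R : V → V → Prop := fun a b => b = f a ∨ b = g a
  let C : Finset V := univ.filter fun u => Relation.ReflTransGen R v0 u
  have hC : ∀ u, u ∈ C ↔ Relation.ReflTransGen R v0 u := fun u => by
    show u ∈ univ.filter _ ↔ _
    rw [mem_filter]
    exact and_iff_right (mem_univ _)
  have hCf : ∀ u ∈ C, f u ∈ C := fun u hu => (hC _).2 (((hC _).1 hu).tail (Or.inl rfl))
  have hCg : ∀ u ∈ C, g u ∈ C := fun u hu => (hC _).2 (((hC _).1 hu).tail (Or.inr rfl))
  have hv0C : v0 ∈ C := (hC _).2 Relation.ReflTransGen.refl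
  -- on `C` the matchings differ
  have hne : ∀ u, Relation.ReflTransGen R v0 u → f u ≠ g u := by
    intro u hu
    induction hu with
    | refl => exact hv0
    | tail _ h ih =>
      rename_i a b
      intro h'
      rcases h with h | h
      · rw [h, hf] at h'
        exact ih (by
          have h2 := congrArg g h'
          rw [hg] at h2
          exact h2.symm)
      · rw [h, hg] at h'
        exact ih (by
          have h2 := congrArg f h'
          rw [hf] at h2
          exact h2.symm)
  have hkC : ∀ u ∈ C, ∀ i, kk f g u i ∈ C := by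
    intro u hu i
    induction i with
    | zero => exact hCg u hu
    | succ i ih =>
      by_cases hi : Even i
      · rw [kk_even f g u hi]
        exact hCg _ ih
      · rw [kk_odd f g u hi]
        exact hCf _ ih
  have hkC' : ∀ u ∈ C, ∀ i, kk g f u i ∈ C := by
    intro u hu i
    induction i with
    | zero => exact hCf u hu
    | succ i ih =>
      by_cases hi : Even i
      · rw [kk_even g f u hi]
        exact hCf _ ih
      · rw [kk_odd g f u hi]
        exact hCg _ ih
  by_cases hex : (L.filter fun T => (T ∩ C).Nonempty ∧ ¬ C ⊆ T).Nonempty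
  · obtain ⟨T, hT, hmax⟩ := exists_max_image _ (fun T => (T ∩ C).card) hex
    obtain ⟨hTL, hTC, hCT⟩ := mem_filter.1 hT
    -- a step of the graph which leaves `T`
    obtain ⟨x, hxC, hxT, y, hyC, hyT, hxy⟩ : ∃ x ∈ C, x ∈ T ∧ ∃ y ∈ C, y ∉ T ∧ (y = f x ∨ y = g x) := by
      by_contra hcon
      push Not at hcon
      have h1 : ∀ u, Relation.ReflTransGen R v0 u → (u ∈ T ↔ v0 ∈ T) := by
        intro u hu
        induction hu with
        | refl => exact Iff.rfl
        | tail hab h ih =>
          rename_i a b
          rw [← ih]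
          have haC : a ∈ C := (hC a).2 hab
          have hbC : b ∈ C := (hC b).2 (hab.tail h)
          constructor
          · intro hb
            by_contra ha
            have h2 := hcon b hbC hb a haC ha
            rcases h with h | h
            · exact h2.1 (by rw [h, hf])
            · exact h2.2 (by rw [h, hg])
          · intro ha
            by_contra hb
            have h2 := hcon a haC ha b hbC hb
            rcases h with h | h
            · exact h2.1 h
            · exact h2.2 h
      obtain ⟨z, hz⟩ := hTC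
      obtain ⟨hz1, hz2⟩ := mem_inter.1 hz
      have h3 := (h1 z ((hC z).1 hz2)).1 hz1
      exact hCT fun u hu => (h1 u ((hC u).1 hu)).2 h3
    -- it is a top edge
    have htop : ∀ T' ∈ L, x ∈ T' → y ∈ T' → C ⊆ T' := by
      intro T' hT' hx hy
      have h1 : T ⊆ T' := by
        rcases hL T hTL T' hT' with h | h | h
        · exact h
        · exact absurd (h hy) hyT
        · exact absurd hx (Finset.disjoint_left.1 h hxT)
      by_contra hc
      have h2 := hmax T' (mem_filter.2 ⟨hT', ⟨x, mem_inter.2 ⟨hx, hxC⟩⟩, hc⟩)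
      have h3 : (T ∩ C).card < (T' ∩ C).card := by
        apply card_lt_card
        rw [ssubset_iff_of_subset (inter_subset_inter_right h1)]
        exact ⟨y, mem_inter.2 ⟨hy, hyC⟩, fun h => hyT (mem_inter.1 h).1⟩
      omega
    refine ⟨x, hne x ((hC x).1 hxC), ?_⟩
    rcases hxy with h | h
    · right
      intro T' hT' hx hy i
      exact htop T' hT' hx (by rw [h]; exact hy) (hkC' x hxC i)
    · left
      intro T' hT' hx hy i
      exact htop T' hT' hx (by rw [h]; exact hy) (hkC x hxC i)
  · refine ⟨v0, hv0, Or.inl fun T hT hv _ i => ?_⟩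
    by_contra hi
    apply hex
    refine ⟨T, mem_filter.2 ⟨hT, ⟨v0, mem_inter.2 ⟨hv, hv0C⟩⟩, fun h => hi (h (hkC v0 hv0C i))⟩⟩

/-- a run which is left at both ends is odd -/
theorem kk_run [DecidableEq V] (f g : V → V) (hf : ∀ u, f (f u) = u) (hg : ∀ u, g (g u) = u) (v : V) (N : ℕ)
    (hper : ∀ i, kk f g v (N + i) = kk f g v i) (hinj : ∀ i j, i < N → j < N → kk f g v i = kk f g v j → i = j)
    (T : Finset V) (h1 : (T.filter fun u => f u ∉ T).card = 1) (h2 : (T.filter fun u => g u ∉ T).card = 1)
    (r s : ℕ) (hr : 1 ≤ r) (hrs : r ≤ s) (hs : s ≤ N) (h3 : kk f g v (r - 1) ∉ T) (h4 : kk f g v r ∈ T) (h5 : kk f g v s ∈ T)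
    (h6 : kk f g v (s + 1) ∉ T) : Even (s - r) := by
  rcases Nat.even_or_odd (s - r) with he | ho
  · exact he
  exfalso
  obtain ⟨t, ht⟩ := ho
  have hrs' : r < s := by omega
  -- the two vertices agree
  have hrr : kk f g v r = kk f g v s := by
    by_cases hr1 : Even (r - 1)
    · have hs1 : Even s := by
        obtain ⟨e, he⟩ := hr1
        exact ⟨e + t + 1, by omega⟩
      have e1 : kk f g v r = g (kk f g v (r - 1)) := by
        rw [← kk_even f g v hr1, Nat.sub_add_cancel hr]
      have e2 : kk f g v (s + 1) = g (kk f g v s) := kk_even f g v hs1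
      refine cr_unique h2 h4 ?_ h5 ?_
      · rw [e1, hg]
        exact h3
      · rw [← e2]
        exact h6
    · have hs1 : ¬ Even s := by
        intro he
        apply hr1
        obtain ⟨e, he⟩ := he
        exact ⟨e - t - 1, by omega⟩
      have e1 : kk f g v r = f (kk f g v (r - 1)) := by
        rw [← kk_odd f g v hr1, Nat.sub_add_cancel hr]
      have e2 : kk f g v (s + 1) = f (kk f g v s) := kk_odd f g v hs1
      refine cr_unique h1 h4 ?_ h5 ?_
      · rw [e1, hf]
        exact h3
      · rw [← e2]
        exact h6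
  rcases Nat.lt_or_ge s N with hsN | hsN
  · have := hinj r s (by omega) hsN hrr
    omega
  · have hsN' : s = N + 0 := by omega
    rw [hsN', hper 0] at hrr
    have := hinj r 0 (by omega) (by omega) hrr
    omega

end QIS
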