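import Pool.Agent.Lib.MP_0087d5_lcQI.Iso

/-!
# The isolation theorem with a start weight

The same as `iso_most`, with any symmetric weight `w0` in place of the weight zero at the start: the isolated perfect matching is
one of least weight for `w0`.
-/

set_option autoImplicit false
set_option linter.unusedSectionVars false

namespace QIS

open Finset MTC

/-- the weights with the parameters `r` and the start weight `w0` -/
def WW {V : Type} (w0 : V → V → ℕ) (e : V → V → ℕ) (K m : ℕ) (r : ℕ → ℕ) : ℕ → V → V → ℕ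
  | 0, u, v => w0 u v
  | i + 1, u, v => K * WW w0 e K m r i u v + r i ^ e u v % m

theorem WW_zero {V : Type} (e : V → V → ℕ) (K m : ℕ) (r : ℕ → ℕ) (i : ℕ) :
    WW (fun _ _ => 0) e K m r i = WS e K m r i := by
  induction i with
  | zero => rfl
  | succ i ih =>
    funext a b
    change K * WW (fun _ _ => 0) e K m r i a b + r i ^ e a b % m = K * WS e K m r i a b + r i ^ e a b % m
    rw [ih]

section
variable {V : Type} [Fintype V] [DecidableEq V]

theorem WW_symm {n : ℕ} {w0 : V → V → ℕ} (h0 : ∀ a b, w0 a b = w0 b a) {e : V → V → ℕ} (he : Lab n e) (K m : ℕ)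
    (r : ℕ → ℕ) (i : ℕ) (a b : V) : WW w0 e K m r i a b = WW w0 e K m r i b a := by
  induction i with
  | zero => exact h0 a b
  | succ i ih =>
    change K * WW w0 e K m r i a b + r i ^ e a b % m = K * WW w0 e K m r i b a + r i ^ e b a % m
    rw [ih, he.1 a b]

theorem WW_congr (w0 : V → V → ℕ) (e : V → V → ℕ) (K m : ℕ) {r r' : ℕ → ℕ} (i : ℕ) (h : ∀ j < i, r j = r' j) :
    WW w0 e K m r i = WW w0 e K m r' i := by
  induction i with
  | zero => rfl
  | succ i ih =>
    funext a b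
    change K * WW w0 e K m r i a b + r i ^ e a b % m = K * WW w0 e K m r' i a b + r' i ^ e a b % m
    rw [ih fun j hj => h j (by omega), h i (by omega)]

/-- a perfect matching of least weight for `WW` is one for the start weight -/
theorem WW_min {n m K : ℕ} (hV : Fintype.card V ≤ n) (hm : 0 < m) (hK : n * m < K) {A : V → V → Prop}
    (w0 e : V → V → ℕ) (r : ℕ → ℕ) (i : ℕ) {f : V → V} (hf : IsMin A (WW w0 e K m r i) f) : IsMin A w0 f := by
  induction i with
  | zero => exact hf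
  | succ i ih =>
    exact ih (min_mono A (WW w0 e K m r i) (fun a b => r i ^ e a b % m) _ K (fun _ _ => rfl)
      (fun g _ => tw_small hV hm hK e (r i) g) hf)

/-- the start -/
theorem good_start {A : V → V → Prop} (hA2 : ∀ a, ¬ A a a) (hM : ∃ f, IsPM A f) {w0 : V → V → ℕ}
    (h0 : ∀ a b, w0 a b = w0 b a) : ∃ L, Good A w0 L 1 := by
  obtain ⟨L, _, h1, h2, h3⟩ := key_ext A hA2 w0 h0 hM ∅
    (fun S hS => absurd hS (notMem_empty S)) (fun S hS => absurd hS (notMem_empty S))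
  exact ⟨L, h1, h2, h3, hm_one _ _⟩

end

open Classical in
/-- **Isolation of a perfect matching of least weight, for most parameters.** -/
theorem iso_most_w : ∃ C : ℕ, ∀ (V : Type) [Fintype V] [DecidableEq V] (n : ℕ), 2 ≤ n → Fintype.card V ≤ n →
    ∀ e : V → V → ℕ, Lab n e → ∀ m : ℕ, m.Prime → ∀ K : ℕ, n * m < K →
    ∀ w0 : V → V → ℕ, (∀ a b, w0 a b = w0 b a) →
    ∀ A : V → V → Prop, (∀ a b, A a b → A b a) → (∀ a, ¬ A a a) → (∃ f, MTC.IsPM A f) →
    ∃ B : ℕ → (ℕ → ℕ) → Finset ℕ, (∀ i r, (B i r).card ≤ n ^ C) ∧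
      (∀ i r r', (∀ j < i, r j = r' j) → B i r = B i r') ∧
      ∀ r : ℕ → ℕ, (∀ i < Nat.clog 2 n, r i < m ∧ r i ∉ B i r) → ∃ f, MTC.IsMin A w0 f ∧
        ∀ f', MTC.IsPM A f' → f' ≠ f →
          MTC.tw (WW w0 e K m r (Nat.clog 2 n)) f < MTC.tw (WW w0 e K m r (Nat.clog 2 n)) f' := by
  refine ⟨122, ?_⟩
  intro V _ _ n hn hV e he m hmp K hK w0 h0 A _ hA2 hM
  -- the bad sets
  have hst : ∀ (w : V → V → ℕ) (M : ℕ), ∃ B : Finset ℕ, B.card ≤ n ^ 122 ∧
      ((∃ L, Good A w L M) → (∀ a b, w a b = w b a) → 1 ≤ M → M ≤ n → ∀ ρ < m, ρ ∉ B →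
        ∃ L', Good A (fun a b => K * w a b + ρ ^ e a b % m) L' (2 * M)) := by
    intro w M
    by_cases h : (∃ L, Good A w L M) ∧ (∀ a b, w a b = w b a) ∧ 1 ≤ M ∧ M ≤ n
    · obtain ⟨⟨L, hL⟩, h1, h2, h3⟩ := h
      obtain ⟨B, hB1, hB2⟩ := stage hn hV he hmp hK hA2 hM h1 hL h2 h3
      exact ⟨B, hB1, fun _ _ _ _ => hB2⟩
    · exact ⟨∅, by simp, fun h1 h2 h3 h4 => absurd ⟨h1, h2, h3, h4⟩ h⟩
  choose Bf hB1 hB2 using hst
  refine ⟨fun i r => Bf (WW w0 e K m r i) (2 ^ i), fun i r => hB1 _ _, fun i r r' h => ?_, fun r hr => ?_⟩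
  · dsimp only
    rw [WW_congr w0 e K m i h]
  · have hG : ∀ i ≤ Nat.clog 2 n, ∃ L, Good A (WW w0 e K m r i) L (2 ^ i) := by
      intro i
      induction i with
      | zero =>
        intro _
        obtain ⟨L, hL⟩ := good_start hA2 hM h0
        exact ⟨L, hL⟩
      | succ i ih =>
        intro hi
        have h1 : 2 ^ i ≤ n := by
          by_contra h2
          have h3 : Nat.clog 2 n ≤ i := Nat.clog_le_of_le_pow (by omega)
          omega
        obtain ⟨L', hL'⟩ := hB2 (WW w0 e K m r i) (2 ^ i) (ih (by omega)) (WW_symm h0 he K m r i)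
          Nat.one_le_two_pow h1 (r i) (hr i (by omega)).1 (hr i (by omega)).2
        refine ⟨L', ?_⟩
        rw [pow_succ, mul_comm (2 ^ i) 2]
        exact hL'
    obtain ⟨L, hL⟩ := hG _ le_rfl
    have hcl : n ≤ 2 ^ Nat.clog 2 n := Nat.le_pow_clog (by norm_num) n
    obtain ⟨f, hf⟩ := exists_min (WW w0 e K m r (Nat.clog 2 n)) hM
    refine ⟨f, WW_min hV hmp.pos hK w0 e r _ hf, fun f' hf' hne => ?_⟩
    rcases Nat.lt_or_ge (MTC.tw (WW w0 e K m r (Nat.clog 2 n)) f) (MTC.tw (WW w0 e K m r (Nat.clog 2 n)) f')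
      with h | h
    · exact h
    · exfalso
      refine hne (end_one hA2 hL (hV.trans hcl) ⟨hf', fun g hg => h.trans (hf.2 g hg)⟩ hf)

end QIS
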