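import Pool.Agent.Lib.MP_0087d5_lcMT.W2

/-!
# The extension of a laminar family of tight sets (after MT/U3 and MT/W2)

`IsMin A w f`: least weight. If `w' = K * w + z` with `tw z < K` on the perfect matchings, the least weight matchings of `w'` are of least weight for `w`
(`min_mono`), so that sets tight for `w` stay tight for `w'`; `key_ext` gives a maximal laminar family which contains the old one.
-/

set_option autoImplicit false

namespace QIS

open Finset MTC

variable {V : Type} [Fintype V] [DecidableEq V]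

private theorem KE_max (x : V → V → ℝ) (L0 : Finset (Finset V)) (g0 : ∀ S ∈ L0, Tight x S) (g1 : Lam L0) :
    ∃ L : Finset (Finset V), L0 ⊆ L ∧ (∀ S ∈ L, Tight x S) ∧ Lam L ∧
    ∀ T, Tight x T → (∀ S ∈ L, ¬ Cr S T) → T ∈ L := by
  classical
  obtain ⟨L, hL, hmax⟩ := Finset.exists_max_image
    ((Finset.univ : Finset (Finset (Finset V))).filter fun L => L0 ⊆ L ∧ (∀ S ∈ L, Tight x S) ∧ Lam L) Finset.card
    ⟨L0, Finset.mem_filter.2 ⟨Finset.mem_univ _, Finset.Subset.refl _, g0, g1⟩⟩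
  obtain ⟨h0, h1, h2⟩ := (Finset.mem_filter.1 hL).2
  refine ⟨L, h0, h1, h2, fun T hT hc => ?_⟩
  by_contra hn
  have hcr : ∀ S ∈ L, S ⊆ T ∨ T ⊆ S ∨ Disjoint S T := by
    intro S hS
    by_contra h0
    push Not at h0
    exact hc S hS ⟨h0.1, h0.2.1, h0.2.2⟩
  have hlam : Lam (insert T L) := by
    intro A hA B hB
    rcases Finset.mem_insert.1 hA with hA1 | hA1
    · rcases Finset.mem_insert.1 hB with hB1 | hB1
      · rw [hA1, hB1]
        exact Or.inl (Finset.Subset.refl _)
      · rw [hA1]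
        rcases hcr B hB1 with h | h | h
        · exact Or.inr (Or.inl h)
        · exact Or.inl h
        · exact Or.inr (Or.inr h.symm)
    · rcases Finset.mem_insert.1 hB with hB1 | hB1
      · rw [hB1]
        exact hcr A hA1
      · exact h2 A hA1 B hB1
  have hti : ∀ S ∈ insert T L, Tight x S := by
    intro A hA
    rcases Finset.mem_insert.1 hA with rfl | hA
    · exact hT
    · exact h1 A hA
  have h3 := hmax (insert T L) (Finset.mem_filter.2 ⟨Finset.mem_univ _, h0.trans (Finset.subset_insert _ _), hti, hlam⟩)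
  rw [Finset.card_insert_of_notMem hn] at h3
  omega

theorem laminar_span_ext (x : V → V → ℝ) (hx : FP x) (L0 : Finset (Finset V)) (g0 : ∀ S ∈ L0, Tight x S) (g1 : Lam L0) :
    ∃ L : Finset (Finset V), L0 ⊆ L ∧ (∀ S ∈ L, Tight x S) ∧ Lam L ∧
    ∀ v : V → V → ℝ, (∀ a b, v a b = v b a) → (∀ a b, v a b ≠ 0 → x a b ≠ 0) → (∀ S ∈ L, cut v S = 0) →
      ∀ T, Tight x T → cut v T = 0 := by
  classical
  obtain ⟨L, h0, h1, h2, h3⟩ := KE_max x L0 g0 g1
  refine ⟨L, h0, h1, h2, fun v hv hs hc => ?_⟩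
  have key : ∀ (n : ℕ) (T : Finset V), Tight x T → (L.filter fun R => Cr R T).card = n → cut v T = 0 := by
    intro n
    induction n using Nat.strong_induction_on with
    | _ n ih =>
      intro T hT hn
      by_cases hex : ∃ S ∈ L, Cr S T
      · obtain ⟨S, hS, hcr⟩ := hex
        have hlt : ∀ T' : Finset V, (T' = S ∩ T ∨ T' = S ∪ T ∨ T' = S \ T ∨ T' = T \ S) → Tight x T' → cut v T' = 0 := by
          intro T' hT' hti
          have h4 := cross_lt L h2 S T hS hcr T' hT'
          refine ih ((L.filter fun R => Cr R T').card) ?_ T' hti rfl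
          rw [← hn]
          exact h4
        rcases Nat.even_or_odd (S ∩ T).card with he | ho
        · obtain ⟨a1, a2, a3⟩ := uncross_even x hx S T (h1 S hS) hT he
          have a4 := a3 v hv hs
          have a5 := hlt (S \ T) (Or.inr (Or.inr (Or.inl rfl))) a1
          have a6 := hlt (T \ S) (Or.inr (Or.inr (Or.inr rfl))) a2
          have a7 := hc S hS
          linarith
        · obtain ⟨a1, a2, a3⟩ := uncross_odd x hx S T (h1 S hS) hT ho
          have a4 := a3 v hv hs
          have a5 := hlt (S ∩ T) (Or.inl rfl) a1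
          have a6 := hlt (S ∪ T) (Or.inr (Or.inl rfl)) a2
          have a7 := hc S hS
          linarith
      · push Not at hex
        exact hc T (h3 T hT hex)
  intro T hT
  exact key _ T hT rfl

private theorem KE_ev {r p q : ℝ} (h : r < p) : ∀ᶠ e in nhdsWithin (0 : ℝ) (Set.Ioi 0), r ≤ p + e * q := by
  have hc : Filter.Tendsto (fun e : ℝ => p + e * q) (nhdsWithin (0 : ℝ) (Set.Ioi 0)) (nhds (p + 0 * q)) := by
    have : Continuous (fun e : ℝ => p + e * q) := by fun_prop
    exact (this.tendsto 0).mono_left nhdsWithin_le_nhds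
  have h2 : r < p + 0 * q := by simpa using h
  exact (hc.eventually (lt_mem_nhds h2)).mono fun e he => he.le

private theorem KE_cut (x v : V → V → ℝ) (e : ℝ) (S : Finset V) :
    cut (fun a b => x a b + e * v a b) S = cut x S + e * cut v S := by
  unfold cut
  rw [mul_sum, ← sum_add_distrib]
  refine sum_congr rfl fun u _ => ?_
  rw [mul_sum, ← sum_add_distrib]

/-- the weight of a combination of matrices of matchings -/
private theorem KE_comb (w : V → V → ℕ) (F : Finset (V → V)) (μ : (V → V) → ℝ) :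
    ∑ a, ∑ b, (w a b : ℝ) * (∑ f ∈ F, μ f * chi f a b) = ∑ f ∈ F, μ f * (tw w f : ℝ) := by
  have h1 : ∀ a b, (w a b : ℝ) * (∑ f ∈ F, μ f * chi f a b) = ∑ f ∈ F, μ f * ((w a b : ℝ) * chi f a b) := by
    intro a b
    rw [mul_sum]
    exact sum_congr rfl fun f _ => by ring
  simp_rw [h1]
  have h2 : ∀ a, ∑ b, ∑ f ∈ F, μ f * ((w a b : ℝ) * chi f a b) = ∑ f ∈ F, μ f * (w a (f a) : ℝ) := by
    intro a
    rw [sum_comm]
    refine sum_congr rfl fun f _ => ?_
    rw [← mul_sum]
    congr 1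
    rw [sum_eq_single (f a)]
    · simp [chi]
    · intro b _ hb
      have : ¬ f a = b := fun h => hb h.symm
      simp [chi, this]
    · intro h
      exact absurd (mem_univ _) h
  simp_rw [h2]
  rw [sum_comm]
  refine sum_congr rfl fun f _ => ?_
  rw [← mul_sum]
  congr 1
  unfold tw
  push_cast
  rfl

private theorem KE_neg (A : V → V → Prop) (w : V → V → ℕ) (c : ℕ) (hc : ∀ f, IsPM A f → c ≤ tw w f)
    (x : V → V → ℝ) (hx : FP x) (hxc : ∑ a, ∑ b, (w a b : ℝ) * x a b = c) (hxA : ∀ a b, x a b ≠ 0 → A a b)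
    (v : V → V → ℝ) (hs : ∀ a b, v a b = v b a) (hv : ∀ a b, v a b ≠ 0 → x a b ≠ 0) (hr : ∀ a, ∑ b, v a b = 0)
    (hT : ∀ T, Tight x T → cut v T = 0) : ¬ ∑ a, ∑ b, (w a b : ℝ) * v a b < 0 := by
  classical
  intro hneg
  have e1 : ∀ᶠ e in nhdsWithin (0 : ℝ) (Set.Ioi 0), ∀ a b : V, 0 ≤ x a b + e * v a b := by
    rw [Filter.eventually_all]
    intro a
    rw [Filter.eventually_all]
    intro b
    by_cases h : v a b = 0
    · exact Filter.Eventually.of_forall fun e => by rw [h, mul_zero, add_zero]; exact hx.nonneg a b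
    · exact KE_ev (lt_of_le_of_ne (hx.nonneg a b) (hv a b h).symm)
  have e2 : ∀ᶠ e in nhdsWithin (0 : ℝ) (Set.Ioi 0), ∀ S : Finset V, Odd S.card → 1 ≤ cut x S + e * cut v S := by
    rw [Filter.eventually_all]
    intro S
    by_cases h : Odd S.card
    · by_cases h' : cut x S = 1
      · exact Filter.Eventually.of_forall fun e _ => by rw [hT S ⟨h, h'⟩, h', mul_zero, add_zero]
      · exact (KE_ev (q := cut v S) (lt_of_le_of_ne (hx.odd S h) (Ne.symm h'))).mono fun e he _ => he
    · exact Filter.Eventually.of_forall fun e h'' => absurd h'' h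
  have e3 : ∀ᶠ e in nhdsWithin (0 : ℝ) (Set.Ioi 0), 0 < e := self_mem_nhdsWithin
  obtain ⟨e, ⟨he1, he2⟩, he3⟩ := ((e1.and e2).and e3).exists
  have hy : FP (fun a b => x a b + e * v a b) := by
    refine ⟨he1, fun u u' => ?_, fun u => ?_, fun u => ?_, fun S hS => ?_⟩
    · change x u u' + e * v u u' = x u' u + e * v u' u
      rw [hx.symm u u', hs u u']
    · change x u u + e * v u u = 0
      have h1 : v u u = 0 := by
        by_contra h
        exact hv u u h (hx.diag u)
      rw [h1, hx.diag u, mul_zero, add_zero]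
    · change ∑ b, (x u b + e * v u b) = 1
      rw [sum_add_distrib, ← mul_sum, hx.row u, hr u, mul_zero, add_zero]
    · rw [KE_cut]
      exact he2 S hS
  obtain ⟨μ, hμ0, hμ1, hμ2, hμ3⟩ := edmonds' _ hy
  have hPM : ∀ f, μ f ≠ 0 → IsPM A f := by
    intro f hf
    obtain ⟨h1, h2⟩ := hμ1 f hf
    refine ⟨h1, fun u => hxA _ _ fun h => h2 u ?_⟩
    change x u (f u) + e * v u (f u) = 0
    have h3 : v u (f u) = 0 := by
      by_contra h'
      exact hv _ _ h' h
    rw [h, h3, mul_zero, add_zero]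
  have hsum : ∑ a, ∑ b, (w a b : ℝ) * (x a b + e * v a b) = ∑ f, μ f * (tw w f : ℝ) := by
    rw [← KE_comb w univ μ]
    refine sum_congr rfl fun a _ => sum_congr rfl fun b _ => ?_
    rw [← hμ3 a b]
  have hge : (c : ℝ) ≤ ∑ f, μ f * (tw w f : ℝ) := by
    calc (c : ℝ) = ∑ f, μ f * (c : ℝ) := by rw [← sum_mul, hμ2, one_mul]
      _ ≤ ∑ f, μ f * (tw w f : ℝ) := by
          refine sum_le_sum fun f _ => ?_
          by_cases hf : μ f = 0
          · rw [hf, zero_mul, zero_mul]
          · exact mul_le_mul_of_nonneg_left (by exact_mod_cast hc f (hPM f hf)) (hμ0 f)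
  have hlin : ∑ a, ∑ b, (w a b : ℝ) * (x a b + e * v a b) = c + e * ∑ a, ∑ b, (w a b : ℝ) * v a b := by
    rw [← hxc, mul_sum, ← sum_add_distrib]
    refine sum_congr rfl fun a _ => ?_
    rw [mul_sum, ← sum_add_distrib]
    exact sum_congr rfl fun b _ => by ring
  have : e * ∑ a, ∑ b, (w a b : ℝ) * v a b < 0 := mul_neg_of_pos_of_neg he3 hneg
  linarith

private theorem KE_cutchi (f : V → V) (S : Finset V) : cut (chi f) S = ((S.filter fun u => f u ∉ S).card : ℝ) := by
  unfold cut chi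
  rw [card_filter, Nat.cast_sum]
  refine sum_congr rfl fun u _ => ?_
  by_cases h : f u ∈ S
  · rw [if_neg (not_not.2 h), Nat.cast_zero]
    refine sum_eq_zero fun v hv => ?_
    rw [if_neg]
    rintro rfl
    exact (mem_compl.1 hv) h
  · rw [if_pos h, Nat.cast_one, sum_eq_single_of_mem (f u) (mem_compl.2 h)]
    · exact if_pos rfl
    · intro v _ hv
      exact if_neg fun h' => hv h'.symm

/-- tightness for the average -/
private theorem KE_tight (F : Finset (V → V)) (hF : F.Nonempty) (hP : ∀ f ∈ F, ∀ S : Finset V, Odd S.card → 1 ≤ cut (chi f) S)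
    (S : Finset V) (hS : Odd S.card) :
    cut (fun u v => (F.card : ℝ)⁻¹ * ∑ f ∈ F, chi f u v) S = 1 ↔ ∀ f ∈ F, (S.filter fun u => f u ∉ S).card = 1 := by
  have hcard : (0 : ℝ) < F.card := by exact_mod_cast hF.card_pos
  have h1 : cut (fun u v => (F.card : ℝ)⁻¹ * ∑ f ∈ F, chi f u v) S = (F.card : ℝ)⁻¹ * ∑ f ∈ F, cut (chi f) S := by
    unfold cut
    rw [sum_comm' (s := F) (t := fun _ => S) (s' := fun _ => F) (t' := S) (by simp)]
    rw [mul_sum]
    refine sum_congr rfl fun u _ => ?_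
    rw [sum_comm, mul_sum]
  rw [h1]
  constructor
  · intro h f hf
    have h2 : ∑ f ∈ F, (cut (chi f) S - 1) = 0 := by
      rw [sum_sub_distrib, sum_const, nsmul_eq_mul, mul_one]
      rw [inv_mul_eq_div, div_eq_one_iff_eq hcard.ne'] at h
      rw [h, sub_self]
    have h3 := (sum_eq_zero_iff_of_nonneg fun f hf => sub_nonneg.2 (hP f hf S hS)).1 h2 f hf
    rw [KE_cutchi] at h3
    have h4 : ((S.filter fun u => f u ∉ S).card : ℝ) = 1 := by linarith
    exact_mod_cast h4
  · intro h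
    have h2 : ∑ f ∈ F, cut (chi f) S = F.card := by
      rw [sum_congr rfl (g := fun _ => (1 : ℝ)) fun f hf => by rw [KE_cutchi, h f hf, Nat.cast_one], sum_const, nsmul_eq_mul, mul_one]
    rw [h2, inv_mul_cancel₀ hcard.ne']

/-- the extension of a laminar family of tight sets; `L` controls the weights -/
theorem key_ext (A : V → V → Prop) (hA : ∀ a, ¬ A a a) (w : V → V → ℕ) (hw : ∀ a b, w a b = w b a) (hM : ∃ f, IsPM A f)
    (L0 : Finset (Finset V)) (h0 : Lam L0)
    (h1 : ∀ S ∈ L0, Odd S.card ∧ ∀ f, IsMin A w f → (S.filter fun u => f u ∉ S).card = 1) :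
    ∃ L : Finset (Finset V), L0 ⊆ L ∧ Lam L ∧
      (∀ S ∈ L, Odd S.card ∧ ∀ f, IsMin A w f → (S.filter fun u => f u ∉ S).card = 1) ∧
      ∀ v : V → V → ℝ, (∀ a b, v a b = v b a) → (∀ a b, v a b ≠ 0 → HG A w a b) →
      (∀ a, ∑ b, v a b = 0) → (∀ S ∈ L, cut v S = 0) → ∑ a, ∑ b, (w a b : ℝ) * v a b = 0 := by
  classical
  obtain ⟨f0, hf0⟩ := hM
  obtain ⟨f1, hf1, hmin⟩ := Finset.exists_min_image (univ.filter fun f : V → V => IsPM A f) (tw w)
    ⟨f0, mem_filter.2 ⟨mem_univ _, hf0⟩⟩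
  have hf1' : IsPM A f1 := (mem_filter.1 hf1).2
  have hmin' : ∀ g, IsPM A g → tw w f1 ≤ tw w g := fun g hg => hmin g (mem_filter.2 ⟨mem_univ _, hg⟩)
  set F : Finset (V → V) := univ.filter fun f : V → V => IsMin A w f with hF
  have hFm : ∀ f, f ∈ F ↔ IsMin A w f := fun f => by rw [hF, mem_filter]; exact and_iff_right (mem_univ _)
  have hf1F : f1 ∈ F := (hFm f1).2 ⟨hf1', hmin'⟩
  have hFne : F.Nonempty := ⟨f1, hf1F⟩
  have htw : ∀ f ∈ F, tw w f = tw w f1 := fun f hf =>
    le_antisymm (((hFm f).1 hf).2 f1 hf1') (hmin' f ((hFm f).1 hf).1)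
  have hcard : (0 : ℝ) < F.card := by exact_mod_cast hFne.card_pos
  have hx := avg_fp A hA F hFne (fun f hf => ((hFm f).1 hf).1)
  have hPf : ∀ f ∈ F, ∀ S : Finset V, Odd S.card → 1 ≤ cut (chi f) S := by
    intro f hf S hS
    have h2 := avg_fp A hA {f} (singleton_nonempty f) (fun g hg => by rw [mem_singleton.1 hg]; exact ((hFm f).1 hf).1)
    have h3 := h2.odd S hS
    simpa using h3
  have hTi : ∀ S : Finset V, Odd S.card → (cut (fun u v => (F.card : ℝ)⁻¹ * ∑ f ∈ F, chi f u v) S = 1 ↔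
      ∀ f, IsMin A w f → (S.filter fun u => f u ∉ S).card = 1) := by
    intro S hS
    rw [KE_tight F hFne hPf S hS]
    exact ⟨fun h f hf => h f ((hFm f).2 hf), fun h f hf => h f ((hFm f).1 hf)⟩
  set x : V → V → ℝ := fun u v => (F.card : ℝ)⁻¹ * ∑ f ∈ F, chi f u v with hxdef
  have hxc : ∑ a, ∑ b, (w a b : ℝ) * x a b = (tw w f1 : ℕ) := by
    have h1 : ∑ a, ∑ b, (w a b : ℝ) * x a b = ∑ f ∈ F, (F.card : ℝ)⁻¹ * (tw w f : ℝ) := by
      rw [← KE_comb w F (fun _ => (F.card : ℝ)⁻¹)]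
      refine sum_congr rfl fun a _ => sum_congr rfl fun b _ => ?_
      rw [hxdef]
      change (w a b : ℝ) * ((F.card : ℝ)⁻¹ * ∑ f ∈ F, chi f a b) = _
      rw [mul_sum F (fun f => chi f a b)]
    rw [h1, sum_congr rfl (g := fun _ => (F.card : ℝ)⁻¹ * (tw w f1 : ℝ)) (fun f hf => by rw [htw f hf]), sum_const,
      nsmul_eq_mul, ← mul_assoc, mul_inv_cancel₀ hcard.ne', one_mul]
  have hxHG : ∀ a b, x a b ≠ 0 → HG A w a b := by
    intro a b hab
    rw [hxdef] at hab
    have h1 : ∑ f ∈ F, chi f a b ≠ 0 := fun h => hab (by change (F.card : ℝ)⁻¹ * ∑ f ∈ F, chi f a b = 0; rw [h, mul_zero])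
    obtain ⟨f, hf, hfab⟩ := Finset.exists_ne_zero_of_sum_ne_zero h1
    refine ⟨f, (hFm f).1 hf, ?_⟩
    by_contra h
    exact hfab (by simp [chi, h])
  have hHGx : ∀ a b, HG A w a b → x a b ≠ 0 := by
    rintro a b ⟨f, hf, hfab⟩
    have h1 : (1 : ℝ) ≤ ∑ f ∈ F, chi f a b := by
      calc (1 : ℝ) = chi f a b := by simp [chi, hfab]
        _ ≤ ∑ f ∈ F, chi f a b := single_le_sum (f := fun f => chi f a b)
            (fun g _ => by change 0 ≤ chi g a b; unfold chi; split_ifs <;> norm_num) ((hFm f).2 hf)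
    have h2 : 0 < x a b := by
      rw [hxdef]
      change 0 < (F.card : ℝ)⁻¹ * ∑ f ∈ F, chi f a b
      have := inv_pos.2 hcard
      positivity
    exact h2.ne'
  obtain ⟨L, hL0, hLt, hLam, hspan⟩ := laminar_span_ext x hx L0
    (fun S hS => ⟨(h1 S hS).1, (hTi S (h1 S hS).1).2 (h1 S hS).2⟩) h0
  refine ⟨L, hL0, hLam, fun S hS => ⟨(hLt S hS).1, (hTi S (hLt S hS).1).1 (hLt S hS).2⟩, fun v hs hv hr hcut => ?_⟩
  have hxA : ∀ a b, x a b ≠ 0 → A a b := by
    intro a b hab
    obtain ⟨f, hf, hfab⟩ := hxHG a b hab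
    rw [← hfab]
    exact hf.1.2 a
  have hvx : ∀ a b, v a b ≠ 0 → x a b ≠ 0 := fun a b h => hHGx a b (hv a b h)
  have hTv := hspan v hs hvx hcut
  have h1 := KE_neg A w (tw w f1) hmin' x hx hxc hxA v hs hvx hr hTv
  have h2 := KE_neg A w (tw w f1) hmin' x hx hxc hxA (fun a b => - v a b) (fun a b => by rw [hs a b])
    (fun a b h => hvx a b (fun h' => h (by rw [h', neg_zero]))) (fun a => by rw [sum_neg_distrib, hr a, neg_zero])
    (fun T hT => by
      have := hTv T hT
      unfold cut at this ⊢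
      simp only [sum_neg_distrib]
      rw [this, neg_zero])
  have h3 : ∑ a, ∑ b, (w a b : ℝ) * (- v a b) = - ∑ a, ∑ b, (w a b : ℝ) * v a b := by
    rw [← sum_neg_distrib]
    refine sum_congr rfl fun a _ => ?_
    rw [← sum_neg_distrib]
    exact sum_congr rfl fun b _ => by ring
  rw [h3] at h2
  linarith [not_lt.1 h1, not_lt.1 h2]

/-- refined weights: the matchings of least weight stay among the matchings of least weight -/
theorem min_mono (A : V → V → Prop) (w z w' : V → V → ℕ) (K : ℕ) (hw : ∀ a b, w' a b = K * w a b + z a b)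
    (hz : ∀ f, IsPM A f → tw z f < K) {f : V → V} (hf : IsMin A w' f) : IsMin A w f := by
  have htw : ∀ g : V → V, tw w' g = K * tw w g + tw z g := by
    intro g
    unfold tw
    rw [mul_sum, ← sum_add_distrib]
    exact sum_congr rfl fun u _ => hw _ _
  refine ⟨hf.1, fun g hg => ?_⟩
  by_contra hc
  push Not at hc
  have h1 := hf.2 g hg
  rw [htw, htw] at h1
  have h2 := hz g hg
  have h3 : K * (tw w g + 1) ≤ K * tw w f := Nat.mul_le_mul_left K hc
  rw [mul_add, mul_one] at h3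
  omega

theorem hg_mono (A : V → V → Prop) (w z w' : V → V → ℕ) (K : ℕ) (hw : ∀ a b, w' a b = K * w a b + z a b)
    (hz : ∀ f, IsPM A f → tw z f < K) {a b : V} (h : HG A w' a b) : HG A w a b := by
  obtain ⟨f, hf, hab⟩ := h
  exact ⟨f, min_mono A w z w' K hw hz hf, hab⟩

end QIS
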