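import Pool.Agent.Lib.MP_0087d5_lcMT.MDefs

/-!
# Pieces

A piece is a walk `q`, with the outer interval of the positions `a < i ≤ b` and the hole `c < i ≤ d` (the hole may be empty, `c = d`).
The edge `i` joins `q i` and `q (i + 1)`; the cut edges are `a`, `c`, `d`, `b`.
-/

set_option autoImplicit false

namespace QIS

open Finset MTC

section
variable {V : Type} [Fintype V] [DecidableEq V]

/-- the interval of the positions `x < i ≤ y` is good: a set which contains a cut edge contains the interval -/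
def Gd (L : Finset (Finset V)) (q : ℕ → V) (x y : ℕ) : Prop :=
  ∀ T ∈ L, (q x ∈ T ∧ q (x + 1) ∈ T) ∨ (q y ∈ T ∧ q (y + 1) ∈ T) → ∀ i, x < i → i ≤ y → q i ∈ T

/-- pieces -/
structure Pc (H : V → V → Prop) (L : Finset (Finset V)) (q : ℕ → V) (a c d b : ℕ) : Prop where
  ac : a ≤ c
  cd : c ≤ d
  db : d ≤ b
  adj : ∀ i, a ≤ i → i ≤ b → H (q i) (q (i + 1))
  odd : ∀ T ∈ L, ∀ r s, a ≤ r → r < s → s ≤ b → q r ∉ T → (∀ i, r < i → i ≤ s → q i ∈ T) → q (s + 1) ∉ T →
    Odd (r + s)
  out : Gd L q a b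
  hol : Gd L q c d

/-- the matrix of the edge `i` -/
def eg (q : ℕ → V) (i : ℕ) (u v : V) : ℤ :=
  (if q i = u ∧ q (i + 1) = v then 1 else 0) + (if q i = v ∧ q (i + 1) = u then 1 else 0)

/-- the alternating sum of the edges `x ≤ i < y` -/
def av (q : ℕ → V) (x y : ℕ) (u v : V) : ℤ := ∑ i ∈ Ico x y, (-1) ^ i * eg q i u v

/-- the vector of a piece -/
def pv (q : ℕ → V) (a c d b : ℕ) (u v : V) : ℤ := av q a c u v + av q d b u v

/-- the interface: the ends of the cut edges and the parities of the positions -/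
def itf (q : ℕ → V) (a c d b : ℕ) : (Fin 4 → V × V) × (Fin 4 → Bool) :=
  (![(q a, q (a + 1)), (q c, q (c + 1)), (q d, q (d + 1)), (q b, q (b + 1))],
    ![decide (Even a), decide (Even c), decide (Even d), decide (Even b)])

/-- two pieces with the same interface and with size at most `m` have the same vector -/
def Hm (H : V → V → Prop) (L : Finset (Finset V)) (m : ℕ) : Prop :=
  ∀ (q q' : ℕ → V) (a c d b a' c' d' b' : ℕ), Pc H L q a c d b → Pc H L q' a' c' d' b' →
    (c - a) + (b - d) ≤ m → (c' - a') + (b' - d') ≤ m → itf q a c d b = itf q' a' c' d' b' →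
    pv q a c d b = pv q' a' c' d' b'

end

end QIS
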