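import Pool.Agent.Lib.MP_0087d5_lcQI.Tan

/-!
# Splitting of pieces

A piece of size at most `2 m` is the sum of five pieces of size at most `m`.
-/

set_option autoImplicit false
set_option linter.unusedSectionVars false

namespace QIS

open Finset MTC

section
variable {V : Type} [Fintype V] [DecidableEq V]

theorem Gd.refl (L : Finset (Finset V)) (q : ℕ → V) (x : ℕ) : Gd L q x x := by
  intro T _ _ i h1 h2
  omega

theorem Gd.one (L : Finset (Finset V)) (q : ℕ → V) (x : ℕ) : Gd L q x (x + 1) := by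
  intro T _ h i h1 h2
  have h3 : i = x + 1 := by omega
  rw [h3]
  rcases h with h | h
  · exact h.2
  · exact h.1

/-- a run is good -/
theorem Gd.run {L : Finset (Finset V)} (hL : Lam L) (q : ℕ → V) {T : Finset V} (hT : T ∈ L) {r s : ℕ}
    (hrs : r < s) (h1 : q r ∉ T) (h2 : ∀ i, r < i → i ≤ s → q i ∈ T) (h3 : q (s + 1) ∉ T) : Gd L q r s := by
  intro T' hT' h4 i h5 h6
  have h7 : T ⊆ T' := by
    rcases hL T hT T' hT' with h | h | h
    · exact h
    · exfalso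
      rcases h4 with h4 | h4
      · exact h1 (h h4.1)
      · exact h3 (h h4.2)
    · exfalso
      rw [disjoint_left] at h
      rcases h4 with h4 | h4
      · exact h (h2 (r + 1) (by omega) (by omega)) h4.2
      · exact h (h2 s hrs le_rfl) h4.1
  exact h7 (h2 i h5 h6)

/-- the left end of a run -/
theorem run_left (q : ℕ → V) (T : Finset V) (x y' : ℕ) (hx : ¬ (q x ∈ T ∧ q (x + 1) ∈ T)) (n : ℕ) :
    ∀ x' : ℕ, x' - x = n → x ≤ x' → x' < y' → (∀ i, x' < i → i ≤ y' → q i ∈ T) →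
      ∃ r, x ≤ r ∧ r ≤ x' ∧ q r ∉ T ∧ ∀ i, r < i → i ≤ y' → q i ∈ T := by
  induction n with
  | zero =>
    intro x' h1 h2 h3 h4
    have h5 : x' = x := by omega
    subst h5
    exact ⟨x', le_rfl, le_rfl, fun h6 => hx ⟨h6, h4 (x' + 1) (by omega) (by omega)⟩, h4⟩
  | succ n ih =>
    intro x' h1 h2 h3 h4
    by_cases h5 : q x' ∈ T
    · obtain ⟨r, h6, h7, h8, h9⟩ := ih (x' - 1) (by omega) (by omega) (by omega) (fun i hi1 hi2 => by
        rcases Nat.lt_or_ge x' i with h | h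
        · exact h4 i h hi2
        · have h10 : i = x' := by omega
          rw [h10]
          exact h5)
      exact ⟨r, h6, by omega, h8, h9⟩
    · exact ⟨x', h2, le_rfl, h5, h4⟩

/-- the right end of a run -/
theorem run_right (q : ℕ → V) (T : Finset V) (x' y : ℕ) (hy : ¬ (q y ∈ T ∧ q (y + 1) ∈ T)) (n : ℕ) :
    ∀ y' : ℕ, y - y' = n → y' ≤ y → x' < y' → (∀ i, x' < i → i ≤ y' → q i ∈ T) →
      ∃ s, y' ≤ s ∧ s ≤ y ∧ q (s + 1) ∉ T ∧ ∀ i, x' < i → i ≤ s → q i ∈ T := by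
  induction n with
  | zero =>
    intro y' h1 h2 h3 h4
    have h5 : y' = y := by omega
    subst h5
    exact ⟨y', le_rfl, le_rfl, fun h6 => hy ⟨h4 y' h3 le_rfl, h6⟩, h4⟩
  | succ n ih =>
    intro y' h1 h2 h3 h4
    by_cases h5 : q (y' + 1) ∈ T
    · obtain ⟨r, h6, h7, h8, h9⟩ := ih (y' + 1) (by omega) (by omega) (by omega) (fun i hi1 hi2 => by
        rcases Nat.lt_or_ge y' i with h | h
        · have h10 : i = y' + 1 := by omega
          rw [h10]
          exact h5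
        · exact h4 i hi1 h)
      exact ⟨r, by omega, h7, h8, h9⟩
    · exact ⟨y', le_rfl, h2, h5, h4⟩

theorem run_ext (q : ℕ → V) (T : Finset V) {x x' y' y : ℕ} (h1 : x ≤ x') (h2 : x' < y') (h3 : y' ≤ y)
    (hx : ¬ (q x ∈ T ∧ q (x + 1) ∈ T)) (hy : ¬ (q y ∈ T ∧ q (y + 1) ∈ T))
    (h : ∀ i, x' < i → i ≤ y' → q i ∈ T) :
    ∃ r s, x ≤ r ∧ r ≤ x' ∧ y' ≤ s ∧ s ≤ y ∧ q r ∉ T ∧ q (s + 1) ∉ T ∧ ∀ i, r < i → i ≤ s → q i ∈ T := by
  obtain ⟨r, a1, a2, a3, a4⟩ := run_left q T x y' hx (x' - x) x' rfl h1 h2 h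
  obtain ⟨s, b1, b2, b3, b4⟩ := run_right q T r y hy (y - y') y' rfl h3 (by omega) a4
  exact ⟨r, s, a1, a2, b1, b2, a3, b3, b4⟩

open Classical in
/-- **A good interval has a top edge outside the hole.** -/
theorem top {L : Finset (Finset V)} (hL : Lam L) (q : ℕ → V) {x c d y : ℕ} (hxc : x ≤ c) (hcd : c ≤ d)
    (hdy : d ≤ y) (hJ : Gd L q x y) (hh : Gd L q c d) (h2 : x + 2 ≤ y) (hne : ¬ (c = x ∧ d = y)) :
    ∃ g, x < g ∧ g < y ∧ (g ≤ c ∨ d ≤ g) ∧ Gd L q x g ∧ Gd L q g y := by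
  obtain ⟨F, hF⟩ : ∃ F : Finset (ℕ × ℕ), F = (Icc x c ×ˢ Icc d y).filter fun p =>
    p.1 < p.2 ∧ Gd L q p.1 p.2 ∧ ¬ (p.1 = x ∧ p.2 = y) := ⟨_, rfl⟩
  have hmem : ∀ p : ℕ × ℕ, p ∈ F ↔ (((x ≤ p.1 ∧ p.1 ≤ c) ∧ d ≤ p.2 ∧ p.2 ≤ y) ∧
      p.1 < p.2 ∧ Gd L q p.1 p.2 ∧ ¬ (p.1 = x ∧ p.2 = y)) := by
    intro p
    rw [hF, mem_filter, mem_product, mem_Icc, mem_Icc]
  have hne2 : F.Nonempty := by
    rcases Nat.eq_or_lt_of_le hcd with h | h
    · rcases Nat.lt_or_ge c y with h3 | h3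
      · refine ⟨(c, c + 1), (hmem _).2 ?_⟩
        dsimp only
        exact ⟨⟨⟨hxc, le_rfl⟩, by omega, by omega⟩, by omega, Gd.one L q c, by omega⟩
      · refine ⟨(c - 1, c), (hmem _).2 ?_⟩
        dsimp only
        refine ⟨⟨⟨by omega, by omega⟩, by omega, by omega⟩, by omega, ?_, by omega⟩
        have h4 := Gd.one L q (c - 1)
        have h5 : c - 1 + 1 = c := by omega
        rw [h5] at h4
        exact h4
    · refine ⟨(c, d), (hmem _).2 ?_⟩
      dsimp only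
      exact ⟨⟨⟨hxc, le_rfl⟩, le_rfl, hdy⟩, h, hh, hne⟩
  obtain ⟨⟨x', y'⟩, hM, hmax⟩ := exists_max_image F (fun p => p.2 - p.1) hne2
  rw [hmem] at hM
  dsimp only at hM
  obtain ⟨⟨⟨m1, m2⟩, m3, m4⟩, m5, m6, m7⟩ := hM
  -- an edge at the end of the longest interval which is contained in `T`
  have key : ∀ T ∈ L, (x < x' ∧ q x' ∈ T ∧ q (x' + 1) ∈ T) ∨ (y' < y ∧ q y' ∈ T ∧ q (y' + 1) ∈ T) →
      ∀ i, x < i → i ≤ y → q i ∈ T := by
    intro T hT h3
    by_contra h4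
    have h5 : ¬ (q x ∈ T ∧ q (x + 1) ∈ T) := fun h => h4 (hJ T hT (Or.inl h))
    have h6 : ¬ (q y ∈ T ∧ q (y + 1) ∈ T) := fun h => h4 (hJ T hT (Or.inr h))
    have h7 : ∀ i, x' < i → i ≤ y' → q i ∈ T := by
      refine m6 T hT ?_
      rcases h3 with h | h
      · exact Or.inl h.2
      · exact Or.inr h.2
    obtain ⟨r, s, a1, a2, a3, a4, a5, a6, a7⟩ := run_ext q T m1 m5 m4 h5 h6 h7
    have h8 : (r, s) ∈ F := by
      rw [hmem]
      dsimp only
      refine ⟨⟨⟨a1, by omega⟩, by omega, a4⟩, by omega, Gd.run hL q hT (by omega) a5 a7 a6, ?_⟩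
      rintro ⟨rfl, rfl⟩
      exact h4 a7
    have h9 := hmax (r, s) h8
    dsimp only at h9
    rcases h3 with h | h
    · have h10 : r ≠ x' := by
        rintro rfl
        exact a5 h.2.1
      omega
    · have h10 : s ≠ y' := by
        rintro rfl
        exact a6 h.2.2
      omega
  have hG : ∀ g, x < g → g < y → (∀ T ∈ L, q g ∈ T ∧ q (g + 1) ∈ T → ∀ i, x < i → i ≤ y → q i ∈ T) →
      Gd L q x g ∧ Gd L q g y := by
    intro g g1 g2 g3
    constructor
    · intro T hT h3 i hi1 hi2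
      rcases h3 with h3 | h3
      · exact hJ T hT (Or.inl h3) i hi1 (by omega)
      · exact g3 T hT h3 i hi1 (by omega)
    · intro T hT h3 i hi1 hi2
      rcases h3 with h3 | h3
      · exact g3 T hT h3 i (by omega) hi2
      · exact hJ T hT (Or.inr h3) i (by omega) hi2
  rcases Nat.eq_or_lt_of_le m1 with h | h
  · have h3 : y' < y := by
      rcases Nat.eq_or_lt_of_le m4 with h4 | h4
      · exact absurd ⟨h.symm, h4⟩ m7
      · exact h4
    refine ⟨y', by omega, h3, Or.inr m3, hG y' (by omega) h3 fun T hT h4 => ?_⟩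
    exact key T hT (Or.inr ⟨h3, h4⟩)
  · refine ⟨x', h, by omega, Or.inl m2, hG x' h (by omega) fun T hT h4 => ?_⟩
    exact key T hT (Or.inl ⟨h, h4⟩)

open Classical in
/-- splitting without a hole -/
theorem nohole {L : Finset (Finset V)} (hL : Lam L) (q : ℕ → V) {m : ℕ} (hm : 1 ≤ m) {x g : ℕ} (hxg : x ≤ g)
    (hG : Gd L q x g) (hs : g - x ≤ 2 * m) :
    ∃ s h t, x ≤ s ∧ s ≤ h ∧ h ≤ t ∧ t ≤ g ∧ Gd L q s t ∧ Gd L q s h ∧ Gd L q h t ∧
      (s - x) + (g - t) ≤ m ∧ h - s ≤ m ∧ t - h ≤ m := by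
  rcases Nat.lt_or_ge m (g - x) with h1 | h1
  · obtain ⟨F, hF⟩ : ∃ F : Finset (ℕ × ℕ), F = (Icc x g ×ˢ Icc x g).filter fun p =>
      p.1 ≤ p.2 ∧ Gd L q p.1 p.2 ∧ m < p.2 - p.1 := ⟨_, rfl⟩
    have hmem : ∀ p : ℕ × ℕ, p ∈ F ↔ (((x ≤ p.1 ∧ p.1 ≤ g) ∧ x ≤ p.2 ∧ p.2 ≤ g) ∧
        p.1 ≤ p.2 ∧ Gd L q p.1 p.2 ∧ m < p.2 - p.1) := by
      intro p
      rw [hF, mem_filter, mem_product, mem_Icc, mem_Icc]
    have hne : F.Nonempty := by
      refine ⟨(x, g), (hmem _).2 ?_⟩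
      dsimp only
      exact ⟨⟨⟨le_rfl, hxg⟩, hxg, le_rfl⟩, hxg, hG, h1⟩
    obtain ⟨⟨s, t⟩, hM, hmin⟩ := exists_min_image F (fun p => p.2 - p.1) hne
    rw [hmem] at hM
    dsimp only at hM
    obtain ⟨⟨⟨m1, m2⟩, m3, m4⟩, m5, m6, m7⟩ := hM
    obtain ⟨h, h2, h3, _, h4, h5⟩ := top hL q (le_refl s) (le_refl s) m5 m6 (Gd.refl L q s) (by omega)
      (fun h => by omega)
    refine ⟨s, h, t, m1, h2.le, h3.le, m4, m6, h4, h5, by omega, ?_, ?_⟩
    · by_contra h6
      have h7 : (s, h) ∈ F := by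
        rw [hmem]
        dsimp only
        exact ⟨⟨⟨m1, m2⟩, by omega, by omega⟩, h2.le, h4, by omega⟩
      have h8 := hmin (s, h) h7
      dsimp only at h8
      omega
    · by_contra h6
      have h7 : (h, t) ∈ F := by
        rw [hmem]
        dsimp only
        exact ⟨⟨⟨by omega, by omega⟩, by omega, by omega⟩, h3.le, h5, by omega⟩
      have h8 := hmin (h, t) h7
      dsimp only at h8
      omega
  · exact ⟨x, g, g, le_rfl, hxg, le_rfl, le_rfl, hG, hG, Gd.refl L q g, by omega, by omega, by omega⟩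

/-- parts of a piece -/
theorem Pc.sub {H : V → V → Prop} {L : Finset (Finset V)} {q : ℕ → V} {a c d b : ℕ} (h : Pc H L q a c d b)
    {x y z t : ℕ} (hx : a ≤ x) (hxy : x ≤ y) (hyz : y ≤ z) (hzt : z ≤ t) (ht : t ≤ b) (ho : Gd L q x t)
    (hh : Gd L q y z) : Pc H L q x y z t where
  ac := hxy
  cd := hyz
  db := hzt
  adj := fun i h1 h2 => h.adj i (by omega) (by omega)
  odd := fun T hT r s h1 h2 h3 => h.odd T hT r s (by omega) h2 (by omega)
  out := ho
  hol := hh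

/-- the vectors of the pieces of size at most `m` -/
def PV (H : V → V → Prop) (L : Finset (Finset V)) (m : ℕ) (w : V → V → ℤ) : Prop :=
  ∃ (q : ℕ → V) (a c d b : ℕ), Pc H L q a c d b ∧ (c - a) + (b - d) ≤ m ∧ w = pv q a c d b

theorem av_add (q : ℕ → V) {x y z : ℕ} (h1 : x ≤ y) (h2 : y ≤ z) (u v : V) :
    av q x y u v + av q y z u v = av q x z u v := by
  unfold av
  exact sum_Ico_consecutive _ h1 h2

theorem av_self (q : ℕ → V) (x : ℕ) (u v : V) : av q x x u v = 0 := by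
  unfold av
  simp

open Classical in
/-- **A piece of size at most `2 m` is the sum of five pieces of size at most `m`.** -/
theorem split {H : V → V → Prop} {L : Finset (Finset V)} (hL : Lam L) {m : ℕ} (hm : 1 ≤ m) {w : V → V → ℤ}
    (hw : PV H L (2 * m) w) : ∃ u : Fin 5 → V → V → ℤ, (∀ i, PV H L m (u i)) ∧ w = ∑ i, u i := by
  obtain ⟨q, a, c, d, b, h, hs, rfl⟩ := hw
  have hac := h.ac
  have hcd := h.cd
  have hdb := h.db
  have hz : PV H L m (fun _ _ => 0) := by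
    refine ⟨q, a, a, a, a, h.sub le_rfl le_rfl le_rfl le_rfl (by omega) (Gd.refl L q a) (Gd.refl L q a),
      by omega, ?_⟩
    funext u v
    unfold pv
    rw [av_self]
    rfl
  -- five pieces
  have five : ∀ u0 u1 u2 u3 u4 : V → V → ℤ, PV H L m u0 → PV H L m u1 → PV H L m u2 → PV H L m u3 →
      PV H L m u4 → (∀ x y, pv q a c d b x y = u0 x y + u1 x y + u2 x y + u3 x y + u4 x y) →
      ∃ u : Fin 5 → V → V → ℤ, (∀ i, PV H L m (u i)) ∧ pv q a c d b = ∑ i, u i := by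
    intro u0 u1 u2 u3 u4 h0 h1 h2 h3 h4 h5
    refine ⟨![u0, u1, u2, u3, u4], ?_, ?_⟩
    · intro i
      fin_cases i
      · exact h0
      · exact h1
      · exact h2
      · exact h3
      · exact h4
    · funext x y
      rw [h5, Fin.sum_univ_five]
      rfl
  rcases Nat.lt_or_ge m ((c - a) + (b - d)) with h1 | h1
  · obtain ⟨F, hF⟩ : ∃ F : Finset (ℕ × ℕ), F = (Icc a c ×ˢ Icc d b).filter fun p =>
      Gd L q p.1 p.2 ∧ m < (c - p.1) + (p.2 - d) := ⟨_, rfl⟩
    have hmem : ∀ p : ℕ × ℕ, p ∈ F ↔ (((a ≤ p.1 ∧ p.1 ≤ c) ∧ d ≤ p.2 ∧ p.2 ≤ b) ∧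
        Gd L q p.1 p.2 ∧ m < (c - p.1) + (p.2 - d)) := by
      intro p
      rw [hF, mem_filter, mem_product, mem_Icc, mem_Icc]
    have hne : F.Nonempty := by
      refine ⟨(a, b), (hmem _).2 ?_⟩
      dsimp only
      exact ⟨⟨⟨le_rfl, hac⟩, hdb, le_rfl⟩, h.out, h1⟩
    obtain ⟨⟨x, y⟩, hM, hmin⟩ := exists_min_image F (fun p => p.2 - p.1) hne
    rw [hmem] at hM
    dsimp only at hM
    obtain ⟨⟨⟨m1, m2⟩, m3, m4⟩, m6, m7⟩ := hM
    obtain ⟨g, g1, g2, g3, g4, g5⟩ := top hL q m2 hcd m3 m6 h.hol (by omega) (fun h => by omega)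
    have hW : PV H L m (pv q a x y b) :=
      ⟨q, a, x, y, b, h.sub le_rfl m1 (by omega) m4 le_rfl h.out m6, by omega, rfl⟩
    rcases g3 with g3 | g3
    · -- the hole is on the right of `g`
      have hJ : PV H L m (pv q g c d y) := by
        refine ⟨q, g, c, d, y, h.sub (by omega) g3 hcd m3 m4 g5 h.hol, ?_, rfl⟩
        by_contra h6
        have h7 : (g, y) ∈ F := by
          rw [hmem]
          dsimp only
          exact ⟨⟨⟨by omega, g3⟩, m3, m4⟩, g5, by omega⟩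
        have h8 := hmin (g, y) h7
        dsimp only at h8
        omega
      obtain ⟨s, e, t, e1, e2, e3, e4, e5, e6, e7, e8, e9, e10⟩ := nohole hL q hm g1.le g4 (by omega)
      have hR : PV H L m (pv q x s t g) :=
        ⟨q, x, s, t, g, h.sub m1 e1 (by omega) e4 (by omega) g4 e5, e8, rfl⟩
      have hA : PV H L m (pv q s s s e) :=
        ⟨q, s, s, s, e, h.sub (by omega) le_rfl le_rfl e2 (by omega) e6 (Gd.refl L q s), by omega, rfl⟩
      have hB : PV H L m (pv q e e e t) :=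
        ⟨q, e, e, e, t, h.sub (by omega) le_rfl le_rfl e3 (by omega) e7 (Gd.refl L q e), by omega, rfl⟩
      refine five _ _ _ _ _ hW hJ hR hA hB fun u v => ?_
      unfold pv
      rw [av_self, av_self, ← av_add q (m1 : a ≤ x) m2 u v, ← av_add q g1.le g3 u v,
        ← av_add q e1 (by omega : s ≤ g) u v, ← av_add q e2 (by omega : e ≤ g) u v,
        ← av_add q e3 e4 u v, ← av_add q m3 m4 u v]
      ring
    · -- the hole is on the left of `g`
      have hJ : PV H L m (pv q x c d g) := by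
        refine ⟨q, x, c, d, g, h.sub m1 m2 hcd g3 (by omega) g4 h.hol, ?_, rfl⟩
        by_contra h6
        have h7 : (x, g) ∈ F := by
          rw [hmem]
          dsimp only
          exact ⟨⟨⟨m1, m2⟩, g3, by omega⟩, g4, by omega⟩
        have h8 := hmin (x, g) h7
        dsimp only at h8
        omega
      obtain ⟨s, e, t, e1, e2, e3, e4, e5, e6, e7, e8, e9, e10⟩ := nohole hL q hm g2.le g5 (by omega)
      have hR : PV H L m (pv q g s t y) :=
        ⟨q, g, s, t, y, h.sub (by omega) e1 (by omega) e4 m4 g5 e5, e8, rfl⟩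
      have hA : PV H L m (pv q s s s e) :=
        ⟨q, s, s, s, e, h.sub (by omega) le_rfl le_rfl e2 (by omega) e6 (Gd.refl L q s), by omega, rfl⟩
      have hB : PV H L m (pv q e e e t) :=
        ⟨q, e, e, e, t, h.sub (by omega) le_rfl le_rfl e3 (by omega) e7 (Gd.refl L q e), by omega, rfl⟩
      refine five _ _ _ _ _ hW hJ hR hA hB fun u v => ?_
      unfold pv
      rw [av_self, av_self, ← av_add q (m1 : a ≤ x) m2 u v, ← av_add q (g3 : d ≤ g) (by omega : g ≤ b) u v,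
        ← av_add q e1 (by omega : s ≤ b) u v, ← av_add q e2 (by omega : e ≤ b) u v,
        ← av_add q e3 (by omega : t ≤ b) u v, ← av_add q e4 m4 u v]
      ring
  · refine five (pv q a c d b) _ _ _ _ ⟨q, a, c, d, b, h, h1, rfl⟩ hz hz hz hz fun u v => ?_
    ring

/-- the number of the interfaces -/
theorem card_itf : Fintype.card ((Fin 4 → V × V) × (Fin 4 → Bool)) = Fintype.card V ^ 8 * 16 := by
  rw [Fintype.card_prod, Fintype.card_fun, Fintype.card_fun, Fintype.card_prod, Fintype.card_fin,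
    Fintype.card_bool]
  ring

open Classical in
/-- the vectors of the pieces of size at most `m` -/
theorem count_one {H : V → V → Prop} {L : Finset (Finset V)} {m : ℕ} (hH : Hm H L m) :
    ∃ f : (Fin 4 → V × V) × (Fin 4 → Bool) → V → V → ℤ, ∀ w, PV H L m w → ∃ I, w = f I := by
  refine ⟨fun I => if hI : ∃ w, ∃ (q : ℕ → V) (a c d b : ℕ), Pc H L q a c d b ∧ (c - a) + (b - d) ≤ m ∧
    w = pv q a c d b ∧ itf q a c d b = I then hI.choose else 0, ?_⟩
  rintro w ⟨q, a, c, d, b, h1, h2, rfl⟩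
  refine ⟨itf q a c d b, ?_⟩
  have hI : ∃ w, ∃ (q' : ℕ → V) (a' c' d' b' : ℕ), Pc H L q' a' c' d' b' ∧ (c' - a') + (b' - d') ≤ m ∧
    w = pv q' a' c' d' b' ∧ itf q' a' c' d' b' = itf q a c d b := ⟨_, q, a, c, d, b, h1, h2, rfl, rfl⟩
  dsimp only
  rw [dif_pos hI]
  obtain ⟨q', a', c', d', b', g1, g2, g3, g4⟩ := hI.choose_spec
  rw [g3]
  exact hH q q' a c d b a' c' d' b' h1 g1 h2 g2 g4.symm

open Classical in
/-- **There are few vectors of pieces of size at most `2 m`.** -/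
theorem count {H : V → V → Prop} {L : Finset (Finset V)} (hL : Lam L) {m : ℕ} (hm : 1 ≤ m) (hH : Hm H L m) :
    ∃ S : Finset (V → V → ℤ), S.card ≤ (Fintype.card V ^ 8 * 16) ^ 5 ∧ ∀ w, PV H L (2 * m) w → w ∈ S := by
  obtain ⟨f, hf⟩ := count_one hH
  refine ⟨univ.image fun I : Fin 5 → (Fin 4 → V × V) × (Fin 4 → Bool) => ∑ i, f (I i), ?_, ?_⟩
  · refine card_image_le.trans ?_
    rw [card_univ, Fintype.card_fun, card_itf, Fintype.card_fin]
  · intro w hw
    obtain ⟨u, h1, h2⟩ := split hL hm hw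
    choose I hI using fun i => hf (u i) (h1 i)
    rw [mem_image]
    refine ⟨I, mem_univ _, ?_⟩
    rw [h2]
    exact sum_congr rfl fun i _ => (hI i).symm

theorem eg_congr {q q' : ℕ → V} {i j : ℕ} (h1 : q i = q' j) (h2 : q (i + 1) = q' (j + 1)) (u v : V) :
    eg q i u v = eg q' j u v := by
  unfold eg
  rw [h1, h2]

/-- short alternating sums -/
theorem av_short {q q' : ℕ → V} {a c a' c' : ℕ} (h1 : a ≤ c) (h2 : c ≤ a + 1) (h1' : a' ≤ c') (h2' : c' ≤ a' + 1)
    (e1 : q a = q' a') (e2 : q (a + 1) = q' (a' + 1)) (p1 : Even a ↔ Even a') (p2 : Even c ↔ Even c') (u v : V) :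
    av q a c u v = av q' a' c' u v := by
  have h3 : c = a ↔ c' = a' := by
    constructor
    · rintro rfl
      by_contra h
      have h4 : c' = a' + 1 := by omega
      rw [h4, Nat.even_add_one] at p2
      tauto
    · rintro rfl
      by_contra h
      have h4 : c = a + 1 := by omega
      rw [h4, Nat.even_add_one] at p2
      tauto
  by_cases h : c = a
  · rw [h, h3.1 h, av_self, av_self]
  · have h4 : c = a + 1 := by omega
    have h5 : c' = a' + 1 := by
      have h6 : ¬ c' = a' := fun h7 => h (h3.2 h7)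
      omega
    rw [h4, h5]
    unfold av
    rw [sum_Ico_succ_top le_rfl, sum_Ico_succ_top le_rfl, Ico_self, Ico_self, sum_empty, sum_empty,
      eg_congr e1 e2, pow_par p1]

/-- pieces of size at most one -/
theorem hm_one (H : V → V → Prop) (L : Finset (Finset V)) : Hm H L 1 := by
  intro q q' a c d b a' c' d' b' h h' hs hs' hi
  obtain ⟨⟨e1, e2⟩, ⟨e3, e4⟩, ⟨e5, e6⟩, ⟨e7, e8⟩, p1, p2, p3, p4⟩ := itf_eq hi
  have hac := h.ac
  have hdb := h.db
  have hac' := h'.ac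
  have hdb' := h'.db
  funext u v
  unfold pv
  rw [av_short hac (by omega) hac' (by omega) e1 e2 p1 p2 u v,
    av_short hdb (by omega) hdb' (by omega) e5 e6 p3 p4 u v]

end

end QIS
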