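import Pool.Agent.Lib.MP_0087d5_lcQI.Spl
import Pool.Agent.Lib.MP_0087d5_lcQI.KeyExt

/-!
# One stage

One more weight `ρ ^ e u v % m`, with `ρ` outside a small set, doubles the size of the pieces whose vector is determined by the
interface.
-/

set_option autoImplicit false
set_option linter.unusedSectionVars false

namespace QIS

open Finset MTC

/-- the weights with the parameters `r` -/
def WS {V : Type} (e : V → V → ℕ) (K m : ℕ) (r : ℕ → ℕ) : ℕ → V → V → ℕ
  | 0, _, _ => 0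
  | i + 1, u, v => K * WS e K m r i u v + r i ^ e u v % m

/-- labels of the pairs of vertices -/
def Lab {V : Type} (n : ℕ) (e : V → V → ℕ) : Prop :=
  (∀ a b, e a b = e b a) ∧
    (∀ a b a' b', a ≠ b → e a b = e a' b' → (a = a' ∧ b = b') ∨ (a = b' ∧ b = a')) ∧ ∀ a b, e a b < n ^ 2

section
variable {V : Type} [Fintype V] [DecidableEq V]

/-- the state after a stage: `L` is a laminar family of sets which are tight for the perfect matchings of least weight, it
controls the weight, and the vectors of the pieces of size at most `M` are determined by the interface -/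
structure Good (A : V → V → Prop) (w : V → V → ℕ) (L : Finset (Finset V)) (M : ℕ) : Prop where
  lam : Lam L
  tight : ∀ S ∈ L, Odd S.card ∧ ∀ f, IsMin A w f → (S.filter fun u => f u ∉ S).card = 1
  key : ∀ v : V → V → ℝ, (∀ a b, v a b = v b a) → (∀ a b, v a b ≠ 0 → HG A w a b) →
    (∀ a, ∑ b, v a b = 0) → (∀ S ∈ L, cut v S = 0) → ∑ a, ∑ b, (w a b : ℝ) * v a b = 0
  hm : Hm (HG A w) L M

theorem WS_symm {n : ℕ} {e : V → V → ℕ} (he : Lab n e) (K m : ℕ) (r : ℕ → ℕ) (i : ℕ) (a b : V) :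
    WS e K m r i a b = WS e K m r i b a := by
  induction i with
  | zero => rfl
  | succ i ih =>
    change K * WS e K m r i a b + r i ^ e a b % m = K * WS e K m r i b a + r i ^ e b a % m
    rw [ih, he.1 a b]

theorem WS_congr (e : V → V → ℕ) (K m : ℕ) {r r' : ℕ → ℕ} (i : ℕ) (h : ∀ j < i, r j = r' j) :
    WS e K m r i = WS e K m r' i := by
  induction i with
  | zero => rfl
  | succ i ih =>
    funext a b
    change K * WS e K m r i a b + r i ^ e a b % m = K * WS e K m r' i a b + r' i ^ e a b % m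
    rw [ih fun j hj => h j (by omega), h i (by omega)]

theorem HG_symm {A : V → V → Prop} {w : V → V → ℕ} {a b : V} (h : HG A w a b) : HG A w b a := by
  obtain ⟨f, hf, rfl⟩ := h
  exact ⟨f, hf, hf.1.1 a⟩

theorem HG_ne {A : V → V → Prop} (hA : ∀ a, ¬ A a a) {w : V → V → ℕ} {a b : V} (h : HG A w a b) : a ≠ b := by
  obtain ⟨f, hf, rfl⟩ := h
  intro h1
  have h2 := hf.1.2 a
  rw [← h1] at h2
  exact hA a h2

/-! ### Roots -/

theorem roots {n m : ℕ} (hmp : m.Prime) {e : V → V → ℕ} (he : Lab n e) (z : V → V → ℤ)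
    (hz : ∀ a b, z a b = z b a) (hd : ∀ a, z a a = 0) (hne : z ≠ 0) (hb : ∀ a b, |2 * z a b| < m) :
    ∃ B : Finset ℕ, B.card ≤ n ^ 2 ∧ ∀ ρ < m, (m : ℤ) ∣ ∑ a, ∑ b, z a b * (ρ : ℤ) ^ e a b → ρ ∈ B := by
  classical
  have : Fact m.Prime := ⟨hmp⟩
  obtain ⟨P, hP⟩ : ∃ P : Polynomial (ZMod m), P = ∑ a, ∑ b,
    Polynomial.C ((z a b : ℤ) : ZMod m) * Polynomial.X ^ e a b := ⟨_, rfl⟩
  have hP0 : P ≠ 0 := by
    obtain ⟨a0, b0, h0⟩ : ∃ a0 b0, z a0 b0 ≠ 0 := by
      by_contra h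
      push Not at h
      exact hne (funext fun a => funext fun b => h a b)
    have hab : a0 ≠ b0 := by
      rintro rfl
      exact h0 (hd a0)
    intro h1
    have h2 : P.coeff (e a0 b0) = 0 := by rw [h1, Polynomial.coeff_zero]
    have h3 : P.coeff (e a0 b0) = ((2 * z a0 b0 : ℤ) : ZMod m) := by
      rw [hP]
      simp only [Polynomial.finsetSum_coeff, Polynomial.coeff_C_mul_X_pow]
      have h4 : ∀ a b, (if e a0 b0 = e a b then ((z a b : ℤ) : ZMod m) else 0) =
          (if a = a0 ∧ b = b0 then ((z a0 b0 : ℤ) : ZMod m) else 0) +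
            (if a = b0 ∧ b = a0 then ((z a0 b0 : ℤ) : ZMod m) else 0) := by
        intro a b
        by_cases h5 : e a0 b0 = e a b
        · rw [if_pos h5]
          rcases he.2.1 a0 b0 a b hab h5 with ⟨rfl, rfl⟩ | ⟨rfl, rfl⟩
          · rw [if_pos ⟨rfl, rfl⟩, if_neg (fun h => hab h.1), add_zero]
          · rw [if_neg (fun h => hab h.1.symm), if_pos ⟨rfl, rfl⟩, zero_add, hz]
        · rw [if_neg h5, if_neg, if_neg, add_zero]
          · rintro ⟨rfl, rfl⟩
            exact h5 (he.1 _ _)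
          · rintro ⟨rfl, rfl⟩
            exact h5 rfl
      simp only [h4, sum_add_distrib]
      have h6 : ∀ a1 b1 : V, ∑ a, ∑ b, (if a = a1 ∧ b = b1 then ((z a0 b0 : ℤ) : ZMod m) else 0) =
          ((z a0 b0 : ℤ) : ZMod m) := by
        intro a1 b1
        rw [sum_eq_single a1, sum_eq_single b1]
        · simp
        · intro b _ hb1
          exact if_neg fun h => hb1 h.2
        · intro h
          exact absurd (mem_univ _) h
        · intro a _ ha1
          exact sum_eq_zero fun b _ => if_neg fun h => ha1 h.1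
        · intro h
          exact absurd (mem_univ _) h
      rw [h6, h6]
      push_cast
      ring
    rw [h3, ZMod.intCast_zmod_eq_zero_iff_dvd] at h2
    have h7 := Int.eq_zero_of_abs_lt_dvd h2 (hb a0 b0)
    exact h0 (by omega)
  have hdeg : P.natDegree ≤ n ^ 2 := by
    rw [hP]
    refine Polynomial.natDegree_sum_le_of_forall_le _ _ fun a _ => ?_
    refine Polynomial.natDegree_sum_le_of_forall_le _ _ fun b _ => ?_
    refine (Polynomial.natDegree_C_mul_X_pow_le _ _).trans (he.2.2 a b).le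
  refine ⟨P.roots.toFinset.image ZMod.val, ?_, ?_⟩
  · refine card_image_le.trans ((Multiset.toFinset_card_le _).trans ((Polynomial.card_roots' P).trans hdeg))
  · intro ρ hρ hdvd
    rw [mem_image]
    refine ⟨(ρ : ZMod m), ?_, ZMod.val_natCast_of_lt hρ⟩
    rw [Multiset.mem_toFinset, Polynomial.mem_roots hP0, Polynomial.IsRoot.def, hP]
    simp only [Polynomial.eval_finsetSum, Polynomial.eval_mul, Polynomial.eval_C, Polynomial.eval_pow,
      Polynomial.eval_X]
    have h1 : (((∑ a, ∑ b, z a b * (ρ : ℤ) ^ e a b : ℤ)) : ZMod m) = 0 := by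
      rw [ZMod.intCast_zmod_eq_zero_iff_dvd]
      exact hdvd
    push_cast at h1
    exact h1

/-! ### Bounds -/

theorem eg_abs (q : ℕ → V) (i : ℕ) (u v : V) : |eg q i u v| ≤ 2 := by
  unfold eg
  split_ifs <;> norm_num

theorem av_abs (q : ℕ → V) (x y : ℕ) (u v : V) : |av q x y u v| ≤ 2 * ((y - x : ℕ) : ℤ) := by
  unfold av
  refine (abs_sum_le_sum_abs _ _).trans ?_
  have h1 : ∀ i ∈ Ico x y, |(-1 : ℤ) ^ i * eg q i u v| ≤ 2 := by
    intro i _
    rw [abs_mul, abs_pow, abs_neg, abs_one, one_pow, one_mul]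
    exact eg_abs q i u v
  refine (sum_le_card_nsmul _ _ _ h1).trans ?_
  rw [Nat.card_Ico, nsmul_eq_mul]
  linarith

theorem PV_abs {H : V → V → Prop} {L : Finset (Finset V)} {m : ℕ} {w : V → V → ℤ} (hw : PV H L m w) (u v : V) :
    |w u v| ≤ 2 * (m : ℤ) := by
  obtain ⟨q, a, c, d, b, h, hs, rfl⟩ := hw
  unfold pv
  refine (abs_add_le _ _).trans ?_
  have h1 := av_abs q a c u v
  have h2 := av_abs q d b u v
  have h3 : ((c - a : ℕ) : ℤ) + ((b - d : ℕ) : ℤ) ≤ m := by exact_mod_cast hs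
  linarith

theorem Pc.mono {H H' : V → V → Prop} {L L' : Finset (Finset V)} (hH : ∀ a b, H' a b → H a b) (hL : L ⊆ L')
    {q : ℕ → V} {a c d b : ℕ} (h : Pc H' L' q a c d b) : Pc H L q a c d b where
  ac := h.ac
  cd := h.cd
  db := h.db
  adj := fun i h1 h2 => hH _ _ (h.adj i h1 h2)
  odd := fun T hT => h.odd T (hL hT)
  out := fun T hT => h.out T (hL hT)
  hol := fun T hT => h.hol T (hL hT)

/-! ### The stage -/

open Classical in
theorem bad_set {n m : ℕ} (hn : 2 ≤ n) (hV : Fintype.card V ≤ n) (hmp : m.Prime) (hbig : n ^ 122 < m)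
    {e : V → V → ℕ} (he : Lab n e) {H : V → V → Prop} (hH1 : ∀ a b, H a b → H b a) (hH2 : ∀ a b, H a b → a ≠ b)
    {L : Finset (Finset V)} (hL : Lam L) {M : ℕ} (hM1 : 1 ≤ M) (hMn : M ≤ n) (hm : Hm H L M) :
    ∃ B : Finset ℕ, B.card ≤ n ^ 122 ∧ ∀ ρ < m, ρ ∉ B → ∀ s t, PV H L (2 * M) s → PV H L (2 * M) t → s ≠ t →
      ¬ (m : ℤ) ∣ ∑ a, ∑ b, (s a b - t a b) * (ρ : ℤ) ^ e a b := by
  obtain ⟨S, hS1, hS2⟩ := count hL hM1 hm
  have h16 : 16 ≤ n ^ 4 := by
    calc 16 = 2 ^ 4 := by norm_num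
      _ ≤ n ^ 4 := Nat.pow_le_pow_left hn 4
  have hS3 : S.card ≤ n ^ 60 := by
    calc S.card ≤ (Fintype.card V ^ 8 * 16) ^ 5 := hS1
      _ ≤ (n ^ 8 * n ^ 4) ^ 5 := Nat.pow_le_pow_left (Nat.mul_le_mul (Nat.pow_le_pow_left hV 8) h16) 5
      _ = n ^ 60 := by ring
  have hB : ∀ p : (V → V → ℤ) × (V → V → ℤ), ∃ B : Finset ℕ, B.card ≤ n ^ 2 ∧ (PV H L (2 * M) p.1 →
      PV H L (2 * M) p.2 → p.1 ≠ p.2 → ∀ ρ < m,
      (m : ℤ) ∣ ∑ a, ∑ b, (p.1 a b - p.2 a b) * (ρ : ℤ) ^ e a b → ρ ∈ B) := by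
    intro p
    by_cases hp : PV H L (2 * M) p.1 ∧ PV H L (2 * M) p.2 ∧ p.1 ≠ p.2
    · obtain ⟨p1, p2, p3⟩ := hp
      have hsym : ∀ {w : V → V → ℤ}, PV H L (2 * M) w → ∀ a b, w a b = w b a := by
        rintro w ⟨q, a, c, d, b, h, hs, rfl⟩ x y
        exact pv_symm q a c d b x y
      have hdia : ∀ {w : V → V → ℤ}, PV H L (2 * M) w → ∀ a, w a a = 0 := by
        rintro w ⟨q, a, c, d, b, h, hs, rfl⟩ x
        by_contra h1
        exact hH2 x x (pv_supp hH1 h x x h1) rfl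
      obtain ⟨B, hB1, hB2⟩ := roots hmp he (fun a b => p.1 a b - p.2 a b)
        (fun a b => by rw [hsym p1 a b, hsym p2 a b]) (fun a => by rw [hdia p1, hdia p2, sub_zero])
        (fun h => p3 (funext fun a => funext fun b => by
          have h1 := congrFun (congrFun h a) b
          exact sub_eq_zero.1 h1))
        (fun a b => by
          have h1 := PV_abs p1 a b
          have h2 := PV_abs p2 a b
          have h3 : |2 * (p.1 a b - p.2 a b)| ≤ 2 * (|p.1 a b| + |p.2 a b|) := by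
            rw [abs_mul, abs_two]
            have := abs_sub (p.1 a b) (p.2 a b)
            linarith
          have h4 : (16 * n : ℕ) < m := by
            calc 16 * n ≤ n ^ 4 * n := Nat.mul_le_mul_right n h16
              _ = n ^ 5 := by ring
              _ ≤ n ^ 122 := Nat.pow_le_pow_right (by omega) (by norm_num)
              _ < m := hbig
          have h5 : (16 * n : ℤ) < m := by exact_mod_cast h4
          have h6 : (M : ℤ) ≤ n := by exact_mod_cast hMn
          push_cast at h1 h2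
          linarith)
      exact ⟨B, hB1, fun _ _ _ => hB2⟩
    · refine ⟨∅, by simp, fun p1 p2 p3 => absurd ⟨p1, p2, p3⟩ hp⟩
  choose Bf hBf1 hBf2 using hB
  refine ⟨(S ×ˢ S).biUnion Bf, ?_, ?_⟩
  · calc ((S ×ˢ S).biUnion Bf).card ≤ (S ×ˢ S).card * n ^ 2 :=
          card_biUnion_le_card_mul _ _ _ fun p _ => hBf1 p
      _ ≤ (n ^ 60 * n ^ 60) * n ^ 2 := by
          rw [card_product]
          exact Nat.mul_le_mul_right _ (Nat.mul_le_mul hS3 hS3)
      _ = n ^ 122 := by ring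
  · intro ρ hρ hρB s t hs ht hst hdvd
    refine hρB ?_
    rw [mem_biUnion]
    exact ⟨(s, t), mem_product.2 ⟨hS2 s hs, hS2 t ht⟩, hBf2 (s, t) hs ht hst ρ hρ hdvd⟩

theorem tw_small {n m K : ℕ} (hV : Fintype.card V ≤ n) (hm : 0 < m) (hK : n * m < K) (e : V → V → ℕ) (ρ : ℕ)
    (f : V → V) : tw (fun a b => ρ ^ e a b % m) f < K := by
  unfold tw
  have h1 : ∑ u : V, ρ ^ e u (f u) % m ≤ ∑ _u : V, m := sum_le_sum fun u _ => (Nat.mod_lt _ hm).le
  rw [sum_const, card_univ, smul_eq_mul] at h1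
  exact (h1.trans (Nat.mul_le_mul_right m hV)).trans_lt hK

/-- **One stage.** -/
theorem stage {n : ℕ} (hn : 2 ≤ n) (hV : Fintype.card V ≤ n) {e : V → V → ℕ} (he : Lab n e) {m K : ℕ}
    (hmp : m.Prime) (hK : n * m < K) {A : V → V → Prop} (hA2 : ∀ a, ¬ A a a)
    (hM : ∃ f, IsPM A f) {w : V → V → ℕ} (hw : ∀ a b, w a b = w b a) {L : Finset (Finset V)} {M : ℕ}
    (h : Good A w L M) (hM1 : 1 ≤ M) (hMn : M ≤ n) :
    ∃ B : Finset ℕ, B.card ≤ n ^ 122 ∧ ∀ ρ < m, ρ ∉ B →
      ∃ L', Good A (fun a b => K * w a b + ρ ^ e a b % m) L' (2 * M) := by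
  rcases Nat.lt_or_ge (n ^ 122) m with hbig | hbig
  · obtain ⟨B, hB1, hB2⟩ := bad_set hn hV hmp hbig he (H := HG A w) (fun a b => HG_symm)
      (fun a b => HG_ne hA2) h.lam hM1 hMn h.hm
    refine ⟨B, hB1, fun ρ hρ hρB => ?_⟩
    have hz : ∀ f, IsPM A f → tw (fun a b => ρ ^ e a b % m) f < K := fun f _ =>
      tw_small hV hmp.pos hK e ρ f
    obtain ⟨L', hL0, hL1, hL2, hL3⟩ := key_ext A hA2 (fun a b => K * w a b + ρ ^ e a b % m)
      (fun a b => by rw [hw a b, he.1 a b]) hM L h.lam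
      (fun S hS => ⟨(h.tight S hS).1, fun f hf => (h.tight S hS).2 f
        (min_mono A w (fun a b => ρ ^ e a b % m) _ K (fun _ _ => rfl) hz hf)⟩)
    refine ⟨L', hL1, hL2, hL3, ?_⟩
    intro q q' a c d b a' c' d' b' hP hP' hs hs' hi
    by_contra hne
    have hmono : ∀ x y, HG A (fun a b => K * w a b + ρ ^ e a b % m) x y → HG A w x y := fun x y hxy =>
      hg_mono A w (fun a b => ρ ^ e a b % m) _ K (fun _ _ => rfl) hz hxy
    have h1 : PV (HG A w) L (2 * M) (pv q a c d b) := ⟨q, a, c, d, b, hP.mono hmono hL0, hs, rfl⟩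
    have h2 : PV (HG A w) L (2 * M) (pv q' a' c' d' b') :=
      ⟨q', a', c', d', b', hP'.mono hmono hL0, hs', rfl⟩
    refine hB2 ρ hρ hρB _ _ h1 h2 hne ?_
    obtain ⟨t1, t2, t3, t4⟩ := tangent (fun a b => HG_symm) hP hP' hi
    obtain ⟨v, hv⟩ : ∃ v : V → V → ℝ, ∀ x y, v x y = ((pv q a c d b x y - pv q' a' c' d' b' x y : ℤ) : ℝ) :=
      ⟨_, fun _ _ => rfl⟩
    have v1 : ∀ x y, v x y = v y x := fun x y => by rw [hv, hv, t1]
    have v2 : ∀ x y, v x y ≠ 0 → HG A (fun a b => K * w a b + ρ ^ e a b % m) x y := fun x y hxy => by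
      refine t2 x y fun h3 => hxy ?_
      rw [hv, h3]
      norm_num
    have v3 : ∀ x, ∑ y, v x y = 0 := fun x => by
      simp only [hv]
      exact_mod_cast t3 x
    have v4 : ∀ S ∈ L', cut v S = 0 := fun S hS => by
      unfold cut
      simp only [hv]
      exact_mod_cast t4 S hS
    have k1 := hL3 v v1 v2 v3 v4
    have k2 := h.key v v1 (fun x y hxy => hmono x y (v2 x y hxy)) v3 (fun S hS => v4 S (hL0 hS))
    have k3 : ∑ x, ∑ y, ((ρ ^ e x y % m : ℕ) : ℝ) * v x y = 0 := by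
      have h3 : ∑ x, ∑ y, ((K * w x y + ρ ^ e x y % m : ℕ) : ℝ) * v x y =
          K * ∑ x, ∑ y, (w x y : ℝ) * v x y + ∑ x, ∑ y, ((ρ ^ e x y % m : ℕ) : ℝ) * v x y := by
        rw [mul_sum, ← sum_add_distrib]
        refine sum_congr rfl fun x _ => ?_
        rw [mul_sum, ← sum_add_distrib]
        refine sum_congr rfl fun y _ => ?_
        push_cast
        ring
      rw [h3, k2, mul_zero, zero_add] at k1
      exact k1
    have k4 : ∑ x, ∑ y, ((ρ ^ e x y % m : ℕ) : ℤ) * (pv q a c d b x y - pv q' a' c' d' b' x y) = 0 := by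
      have h3 : ((∑ x, ∑ y, ((ρ ^ e x y % m : ℕ) : ℤ) * (pv q a c d b x y - pv q' a' c' d' b' x y) : ℤ) : ℝ) =
          ∑ x, ∑ y, ((ρ ^ e x y % m : ℕ) : ℝ) * v x y := by
        rw [Int.cast_sum]
        refine sum_congr rfl fun x _ => ?_
        rw [Int.cast_sum]
        refine sum_congr rfl fun y _ => ?_
        rw [Int.cast_mul, hv, Int.cast_natCast]
      rw [k3] at h3
      exact_mod_cast h3
    have k5 : ∑ x, ∑ y, (pv q a c d b x y - pv q' a' c' d' b' x y) * (ρ : ℤ) ^ e x y =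
        m * ∑ x, ∑ y, (pv q a c d b x y - pv q' a' c' d' b' x y) * ((ρ ^ e x y / m : ℕ) : ℤ) := by
      rw [← sub_eq_zero, ← k4, mul_sum, ← sum_sub_distrib]
      refine sum_congr rfl fun x _ => ?_
      rw [mul_sum, ← sum_sub_distrib]
      refine sum_congr rfl fun y _ => ?_
      have h3 : ((ρ : ℤ) ^ e x y) = (m : ℤ) * ((ρ ^ e x y / m : ℕ) : ℤ) + ((ρ ^ e x y % m : ℕ) : ℤ) := by
        exact_mod_cast (Nat.div_add_mod (ρ ^ e x y) m).symm
      rw [h3]
      ring
    rw [k5]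
    exact dvd_mul_right _ _
  · exact ⟨range m, by rw [card_range]; exact hbig, fun ρ hρ hρB => absurd (mem_range.2 hρ) hρB⟩

/-- the start -/
theorem good_zero {A : V → V → Prop} (hA2 : ∀ a, ¬ A a a) (hM : ∃ f, IsPM A f) :
    ∃ L, Good A (fun _ _ => 0) L 1 := by
  obtain ⟨L, _, h1, h2, h3⟩ := key_ext A hA2 (fun _ _ => 0) (fun _ _ => rfl) hM ∅
    (fun S hS => absurd hS (notMem_empty S)) (fun S hS => absurd hS (notMem_empty S))
  exact ⟨L, h1, h2, h3, hm_one _ _⟩

end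

end QIS
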