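import Pool.Agent.Lib.MP_0087d5_lcQI.Pc

/-!
# Tangent vectors

The difference of the vectors of two pieces with the same interface has row sums zero, and its sum over the cut of every set
of the family is zero.
-/

set_option autoImplicit false
set_option linter.unusedSectionVars false

namespace QIS

open Finset MTC

section
variable {V : Type} [Fintype V] [DecidableEq V]

theorem eg_symm (q : ℕ → V) (i : ℕ) (u v : V) : eg q i u v = eg q i v u := by
  unfold eg
  exact add_comm _ _

theorem pv_symm (q : ℕ → V) (a c d b : ℕ) (u v : V) : pv q a c d b u v = pv q a c d b v u := by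
  unfold pv av
  simp only [eg_symm q _ u v]

/-- the row sum of an edge -/
theorem eg_row (q : ℕ → V) (i : ℕ) (u : V) :
    ∑ v, eg q i u v = (if q i = u then 1 else 0) + (if q (i + 1) = u then 1 else 0) := by
  unfold eg
  rw [sum_add_distrib]
  refine congrArg₂ (· + ·) ?_ ?_
  · by_cases h : q i = u
    · simp [h]
    · simp [h]
  · by_cases h : q (i + 1) = u
    · simp [h]
    · simp [h]

/-- telescoping -/
theorem tele (f : ℕ → ℤ) (x y : ℕ) (h : x ≤ y) :
    ∑ i ∈ Ico x y, (-1) ^ i * (f i + f (i + 1)) = (-1) ^ x * f x - (-1) ^ y * f y := by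
  induction y, h using Nat.le_induction with
  | base => simp
  | succ n hn ih =>
    rw [sum_Ico_succ_top hn, ih]
    ring

/-- the row sums of an alternating sum -/
theorem av_row (q : ℕ → V) (x y : ℕ) (h : x ≤ y) (u : V) :
    ∑ v, av q x y u v = (-1) ^ x * (if q x = u then 1 else 0) - (-1) ^ y * (if q y = u then 1 else 0) := by
  unfold av
  rw [sum_comm]
  rw [← tele (fun i => if q i = u then 1 else 0) x y h]
  refine sum_congr rfl fun i _ => ?_
  rw [← mul_sum, eg_row]

/-- the sum of an integral matrix over the cut of a set -/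
def ict (x : V → V → ℤ) (T : Finset V) : ℤ := ∑ u ∈ T, ∑ v ∈ Tᶜ, x u v

/-- `1` if the edge `i` is in the cut of `T` -/
def X1 (q : ℕ → V) (T : Finset V) (i : ℕ) : ℤ := if (q i ∈ T ↔ q (i + 1) ∈ T) then 0 else 1

theorem eg_cut (q : ℕ → V) (i : ℕ) (T : Finset V) : ict (eg q i) T = X1 q T i := by
  unfold ict X1
  have h1 : ∀ a b : V, ∑ u ∈ T, ∑ v ∈ Tᶜ, (if a = u ∧ b = v then (1 : ℤ) else 0) =
      if a ∈ T ∧ b ∉ T then 1 else 0 := by
    intro a b
    by_cases ha : a ∈ T
    · by_cases hb : b ∈ T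
      · rw [if_neg (fun h => h.2 hb)]
        refine sum_eq_zero fun u _ => sum_eq_zero fun v hv => if_neg ?_
        rintro ⟨_, rfl⟩
        exact (mem_compl.1 hv) hb
      · rw [if_pos ⟨ha, hb⟩, sum_eq_single_of_mem a ha, sum_eq_single_of_mem b (mem_compl.2 hb)]
        · simp
        · intro v _ hv
          exact if_neg fun h => hv h.2.symm
        · intro u _ hu
          exact sum_eq_zero fun v _ => if_neg fun h => hu h.1.symm
    · rw [if_neg (fun h => ha h.1)]
      refine sum_eq_zero fun u hu => sum_eq_zero fun v _ => if_neg ?_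
      rintro ⟨rfl, _⟩
      exact ha hu
  have h2 : ∀ a b : V, ∑ u ∈ T, ∑ v ∈ Tᶜ, (if a = v ∧ b = u then (1 : ℤ) else 0) =
      if b ∈ T ∧ a ∉ T then 1 else 0 := by
    intro a b
    rw [← h1 b a]
    refine sum_congr rfl fun u _ => sum_congr rfl fun v _ => ?_
    simp only [and_comm]
  unfold eg
  simp only [sum_add_distrib]
  rw [h1, h2]
  by_cases ha : q i ∈ T <;> by_cases hb : q (i + 1) ∈ T <;> simp [ha, hb]

theorem av_cut (q : ℕ → V) (x y : ℕ) (T : Finset V) :
    ict (av q x y) T = ∑ i ∈ Ico x y, (-1) ^ i * X1 q T i := by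
  unfold ict av
  have h1 : ∀ u, ∑ v ∈ Tᶜ, ∑ i ∈ Ico x y, (-1) ^ i * eg q i u v =
      ∑ i ∈ Ico x y, (-1) ^ i * ∑ v ∈ Tᶜ, eg q i u v := by
    intro u
    rw [sum_comm]
    exact sum_congr rfl fun i _ => (mul_sum _ _ _).symm
  simp only [h1]
  rw [sum_comm]
  refine sum_congr rfl fun i _ => ?_
  rw [← mul_sum, ← eg_cut]
  rfl

/-- all runs inside are odd -/
def Ro (q : ℕ → V) (T : Finset V) (x y : ℕ) : Prop :=
  ∀ r s, x ≤ r → r < s → s ≤ y → q r ∉ T → (∀ i, r < i → i ≤ s → q i ∈ T) → q (s + 1) ∉ T → Odd (r + s)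

/-- `1` if `v` is in `T` -/
def I1 (T : Finset V) (v : V) : ℤ := if v ∈ T then 1 else 0

/-- the sum over an interval which starts outside `T` and whose last cut edge is not in `T` -/
theorem run_sum (q : ℕ → V) (T : Finset V) (n : ℕ) : ∀ x y : ℕ, y - x = n → x ≤ y → Ro q T x y → q x ∉ T →
    ¬ (q y ∈ T ∧ q (y + 1) ∈ T) → ∑ i ∈ Ico x y, (-1) ^ i * X1 q T i = - ((-1) ^ y * I1 T (q y)) := by
  induction n using Nat.strong_induction_on with
  | _ n ih =>
    intro x y hn hxy hr hx hy
    rcases Nat.eq_or_lt_of_le hxy with h | h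
    · subst h
      simp [I1, hx]
    · by_cases h1 : q (x + 1) ∈ T
      · -- the run which starts at `x + 1`
        by_cases h2 : ∃ s, x < s ∧ s ≤ y ∧ (∀ i, x < i → i ≤ s → q i ∈ T) ∧ q (s + 1) ∉ T
        · obtain ⟨s, hs1, hs2, hs3, hs4⟩ := h2
          have hodd : Odd (x + s) := hr x s le_rfl hs1 hs2 hx hs3 hs4
          have h3 : ∑ i ∈ Ico x s, (-1) ^ i * X1 q T i = (-1) ^ x := by
            rw [sum_eq_sum_Ico_succ_bot hs1]
            have h4 : ∑ i ∈ Ico (x + 1) s, (-1) ^ i * X1 q T i = 0 := by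
              refine sum_eq_zero fun i hi => ?_
              rw [mem_Ico] at hi
              have h5 : X1 q T i = 0 := by
                unfold X1
                rw [if_pos]
                exact ⟨fun _ => hs3 (i + 1) (by omega) (by omega), fun _ => hs3 i (by omega) (by omega)⟩
              rw [h5, mul_zero]
            have h6 : X1 q T x = 1 := by
              unfold X1
              rw [if_neg]
              intro h7
              exact hx (h7.2 h1)
            rw [h4, h6]
            ring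
          have hp : (-1 : ℤ) ^ x = - (-1) ^ s := by
            have h8 : (-1 : ℤ) ^ (x + s) = -1 := hodd.neg_one_pow
            rw [pow_add] at h8
            have h9 : (-1 : ℤ) ^ s * (-1) ^ s = 1 := by
              rw [← pow_add]
              exact (Even.neg_one_pow ⟨s, rfl⟩)
            calc (-1 : ℤ) ^ x = (-1) ^ x * ((-1) ^ s * (-1) ^ s) := by rw [h9, mul_one]
              _ = ((-1) ^ x * (-1) ^ s) * (-1) ^ s := by ring
              _ = - (-1) ^ s := by rw [h8]; ring
          rcases Nat.eq_or_lt_of_le hs2 with h10 | h10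
          · subst h10
            rw [h3, hp]
            have : q s ∈ T := hs3 s hs1 le_rfl
            simp [I1, this]
          · rw [← sum_Ico_consecutive _ hs1.le hs2, h3, sum_eq_sum_Ico_succ_bot h10]
            have h11 : X1 q T s = 1 := by
              unfold X1
              rw [if_neg]
              intro h7
              exact hs4 (h7.1 (hs3 s hs1 le_rfl))
            rw [h11, ih (y - (s + 1)) (by omega) (s + 1) y rfl (by omega)
              (fun r t h12 h13 h14 => hr r t (by omega) h13 h14) hs4 hy, hp]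
            ring
        · -- then the run contains the last cut edge
          exfalso
          have h3 : ∀ k, x + 1 + k ≤ y + 1 → ∀ i, x < i → i ≤ x + 1 + k → q i ∈ T := by
            intro k
            induction k with
            | zero =>
              intro _ i hi1 hi2
              have : i = x + 1 := by omega
              rw [this]
              exact h1
            | succ k ihk =>
              intro hk i hi1 hi2
              rcases Nat.lt_or_ge i (x + 1 + (k + 1)) with h4 | h4
              · exact ihk (by omega) i hi1 (by omega)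
              · have h5 : i = x + 1 + k + 1 := by omega
                by_contra h6
                exact h2 ⟨x + 1 + k, by omega, by omega, ihk (by omega), by rw [← h5]; exact h6⟩
          have h4 := h3 (y - x) (by omega)
          exact hy ⟨h4 y h (by omega), h4 (y + 1) (by omega) (by omega)⟩
      · rw [sum_eq_sum_Ico_succ_bot h]
        have h2 : X1 q T x = 0 := by
          unfold X1
          rw [if_pos]
          exact ⟨fun h3 => absurd h3 hx, fun h3 => absurd h3 h1⟩
        rw [h2, ih (y - (x + 1)) (by omega) (x + 1) y rfl (by omega)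
          (fun r t h12 h13 h14 => hr r t (by omega) h13 h14) h1 hy]
        ring

/-- the sum over an interval whose cut edges are not in `T` -/
theorem run_sum' (q : ℕ → V) (T : Finset V) (x y : ℕ) (hxy : x ≤ y) (hr : Ro q T x y)
    (hx : ¬ (q x ∈ T ∧ q (x + 1) ∈ T)) (hy : ¬ (q y ∈ T ∧ q (y + 1) ∈ T)) :
    ∑ i ∈ Ico x y, (-1) ^ i * X1 q T i = (-1) ^ x * I1 T (q x) - (-1) ^ y * I1 T (q y) := by
  by_cases h : q x ∈ T
  · rcases Nat.eq_or_lt_of_le hxy with h1 | h1
    · subst h1
      simp
    · have h2 : q (x + 1) ∉ T := fun h3 => hx ⟨h, h3⟩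
      rw [sum_eq_sum_Ico_succ_bot h1, run_sum q T (y - (x + 1)) (x + 1) y rfl h1
        (fun r t h12 h13 h14 => hr r t (by omega) h13 h14) h2 hy]
      have h3 : X1 q T x = 1 := by
        unfold X1
        rw [if_neg]
        intro h7
        exact h2 (h7.1 h)
      have h4 : I1 T (q x) = 1 := by simp [I1, h]
      rw [h3, h4]
      ring
  · rw [run_sum q T (y - x) x y rfl hxy hr h hy]
    simp [I1, h]

/-- the sum over the cut edges of an interval inside `T` -/
theorem in_sum (q : ℕ → V) (T : Finset V) (x y : ℕ) (hxy : x ≤ y) (h : ∀ i, x < i → i ≤ y → q i ∈ T) :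
    ∑ i ∈ Ico x y, (-1) ^ i * X1 q T i = if q x ∉ T ∧ q y ∈ T then (-1) ^ x else 0 := by
  rcases Nat.eq_or_lt_of_le hxy with h1 | h1
  · subst h1
    rw [if_neg (fun h2 => h2.1 h2.2)]
    simp
  · rw [sum_eq_sum_Ico_succ_bot h1]
    have h4 : ∑ i ∈ Ico (x + 1) y, (-1) ^ i * X1 q T i = 0 := by
      refine sum_eq_zero fun i hi => ?_
      rw [mem_Ico] at hi
      have h5 : X1 q T i = 0 := by
        unfold X1
        rw [if_pos]
        exact ⟨fun _ => h (i + 1) (by omega) (by omega), fun _ => h i (by omega) (by omega)⟩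
      rw [h5, mul_zero]
    rw [h4]
    by_cases hx : q x ∈ T
    · have h5 : X1 q T x = 0 := by
        unfold X1
        rw [if_pos]
        exact ⟨fun _ => h (x + 1) (by omega) (by omega), fun _ => hx⟩
      rw [h5, if_neg (fun h2 => h2.1 hx)]
      ring
    · have h5 : X1 q T x = 1 := by
        unfold X1
        rw [if_neg]
        intro h7
        exact hx (h7.2 (h (x + 1) (by omega) (by omega)))
      rw [h5, if_pos ⟨hx, h y h1 le_rfl⟩]
      ring

open Classical in
/-- the sum over the cut of `T` as a function of the interface -/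
noncomputable def ifc (T : Finset V) (qa qa' qc qc' qd qd' qb qb' : V) (sa sc sd sb : ℤ) : ℤ :=
  if (qa ∈ T ∧ qa' ∈ T) ∨ (qb ∈ T ∧ qb' ∈ T) then
    (if qa ∉ T ∧ qc ∈ T then sa else 0) + (if qd ∉ T ∧ qb ∈ T then sd else 0)
  else if (qc ∈ T ∧ qc' ∈ T) ∨ (qd ∈ T ∧ qd' ∈ T) then
    sa * I1 T qa - sb * I1 T qb - (if qc ∉ T ∧ qd ∈ T then sc else 0)
  else (sa * I1 T qa - sc * I1 T qc) + (sd * I1 T qd - sb * I1 T qb)

theorem pv_cut (H : V → V → Prop) (L : Finset (Finset V)) (q : ℕ → V) (a c d b : ℕ) (h : Pc H L q a c d b)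
    (T : Finset V) (hT : T ∈ L) :
    ict (pv q a c d b) T = ifc T (q a) (q (a + 1)) (q c) (q (c + 1)) (q d) (q (d + 1)) (q b) (q (b + 1))
      ((-1) ^ a) ((-1) ^ c) ((-1) ^ d) ((-1) ^ b) := by
  have hac := h.ac
  have hcd := h.cd
  have hdb := h.db
  have h0 : ict (pv q a c d b) T = ∑ i ∈ Ico a c, (-1) ^ i * X1 q T i + ∑ i ∈ Ico d b, (-1) ^ i * X1 q T i := by
    rw [← av_cut, ← av_cut]
    unfold ict pv
    simp only [sum_add_distrib]
  have hro : ∀ x y, a ≤ x → y ≤ b → Ro q T x y := fun x y hx hy r s h1 h2 h3 =>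
    h.odd T hT r s (by omega) h2 (by omega)
  rw [h0]
  unfold ifc
  by_cases h1 : (q a ∈ T ∧ q (a + 1) ∈ T) ∨ (q b ∈ T ∧ q (b + 1) ∈ T)
  · rw [if_pos h1]
    have h3 := h.out T hT h1
    rw [in_sum q T a c hac (fun i hi1 hi2 => h3 i hi1 (by omega)),
      in_sum q T d b hdb (fun i hi1 hi2 => h3 i (by omega) hi2)]
  · rw [if_neg h1]
    by_cases h2 : (q c ∈ T ∧ q (c + 1) ∈ T) ∨ (q d ∈ T ∧ q (d + 1) ∈ T)
    · rw [if_pos h2]
      have h3 := h.hol T hT h2
      have h4 := in_sum q T c d hcd h3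
      have h5 := run_sum' q T a b (by omega) (hro a b le_rfl le_rfl) (fun h6 => h1 (Or.inl h6))
        (fun h6 => h1 (Or.inr h6))
      rw [← sum_Ico_consecutive _ hac (by omega : c ≤ b), ← sum_Ico_consecutive _ hcd hdb, h4] at h5
      linarith
    · rw [if_neg h2, run_sum' q T a c hac (hro a c le_rfl (by omega)) (fun h6 => h1 (Or.inl h6))
        (fun h6 => h2 (Or.inl h6)), run_sum' q T d b hdb (hro d b (by omega) le_rfl)
        (fun h6 => h2 (Or.inr h6)) (fun h6 => h1 (Or.inr h6))]

/-- the parts of the equality of two interfaces -/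
theorem itf_eq {q q' : ℕ → V} {a c d b a' c' d' b' : ℕ} (h : itf q a c d b = itf q' a' c' d' b') :
    (q a = q' a' ∧ q (a + 1) = q' (a' + 1)) ∧ (q c = q' c' ∧ q (c + 1) = q' (c' + 1)) ∧
      (q d = q' d' ∧ q (d + 1) = q' (d' + 1)) ∧ (q b = q' b' ∧ q (b + 1) = q' (b' + 1)) ∧
      (Even a ↔ Even a') ∧ (Even c ↔ Even c') ∧ (Even d ↔ Even d') ∧ (Even b ↔ Even b') := by
  unfold itf at h
  obtain ⟨h1, h2⟩ := Prod.mk.inj h
  have e0 := congrFun h1 0
  have e1 := congrFun h1 1
  have e2 := congrFun h1 2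
  have e3 := congrFun h1 3
  have f0 := congrFun h2 0
  have f1 := congrFun h2 1
  have f2 := congrFun h2 2
  have f3 := congrFun h2 3
  simp only [Matrix.cons_val] at e0 e1 e2 e3 f0 f1 f2 f3
  exact ⟨Prod.mk.inj e0, Prod.mk.inj e1, Prod.mk.inj e2, Prod.mk.inj e3, decide_eq_decide.1 f0,
    decide_eq_decide.1 f1, decide_eq_decide.1 f2, decide_eq_decide.1 f3⟩

theorem pow_par {a a' : ℕ} (h : Even a ↔ Even a') : (-1 : ℤ) ^ a = (-1) ^ a' := by
  by_cases h1 : Even a
  · rw [h1.neg_one_pow, (h.1 h1).neg_one_pow]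
  · rw [(Nat.not_even_iff_odd.1 h1).neg_one_pow, (Nat.not_even_iff_odd.1 fun h2 => h1 (h.2 h2)).neg_one_pow]

/-- the support of an alternating sum -/
theorem av_supp {H : V → V → Prop} (hH : ∀ a b, H a b → H b a) (q : ℕ → V) (x y : ℕ)
    (h : ∀ i, x ≤ i → i < y → H (q i) (q (i + 1))) (u v : V) (hu : av q x y u v ≠ 0) : H u v := by
  by_contra h1
  refine hu (sum_eq_zero fun i hi => ?_)
  rw [mem_Ico] at hi
  have h2 := h i hi.1 hi.2
  have h3 : eg q i u v = 0 := by
    unfold eg
    rw [if_neg, if_neg]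
    · rfl
    · rintro ⟨rfl, rfl⟩
      exact h1 (hH _ _ h2)
    · rintro ⟨rfl, rfl⟩
      exact h1 h2
  rw [h3, mul_zero]

theorem pv_supp {H : V → V → Prop} (hH : ∀ a b, H a b → H b a) {L : Finset (Finset V)} {q : ℕ → V}
    {a c d b : ℕ} (h : Pc H L q a c d b) (u v : V) (hu : pv q a c d b u v ≠ 0) : H u v := by
  have hac := h.ac
  have hcd := h.cd
  have hdb := h.db
  by_contra h1
  refine hu ?_
  unfold pv
  have h2 : av q a c u v = 0 := by
    by_contra h2
    exact h1 (av_supp hH q a c (fun i hi1 hi2 => h.adj i hi1 (by omega)) u v h2)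
  have h3 : av q d b u v = 0 := by
    by_contra h3
    exact h1 (av_supp hH q d b (fun i hi1 hi2 => h.adj i (by omega) (by omega)) u v h3)
  rw [h2, h3]
  rfl

/-- **The difference of the vectors of two pieces with the same interface is a tangent vector.** -/
theorem tangent {H : V → V → Prop} (hH : ∀ a b, H a b → H b a) {L : Finset (Finset V)} {q q' : ℕ → V}
    {a c d b a' c' d' b' : ℕ} (h : Pc H L q a c d b) (h' : Pc H L q' a' c' d' b')
    (hi : itf q a c d b = itf q' a' c' d' b') :
    (∀ u v, pv q a c d b u v - pv q' a' c' d' b' u v = pv q a c d b v u - pv q' a' c' d' b' v u) ∧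
    (∀ u v, pv q a c d b u v - pv q' a' c' d' b' u v ≠ 0 → H u v) ∧
    (∀ u, ∑ v, (pv q a c d b u v - pv q' a' c' d' b' u v) = 0) ∧
    ∀ T ∈ L, ∑ u ∈ T, ∑ v ∈ Tᶜ, (pv q a c d b u v - pv q' a' c' d' b' u v) = 0 := by
  obtain ⟨⟨e1, e2⟩, ⟨e3, e4⟩, ⟨e5, e6⟩, ⟨e7, e8⟩, p1, p2, p3, p4⟩ := itf_eq hi
  refine ⟨fun u v => ?_, fun u v hu => ?_, fun u => ?_, fun T hT => ?_⟩
  · rw [pv_symm q a c d b u v, pv_symm q' a' c' d' b' u v]
  · by_cases h1 : pv q a c d b u v = 0
    · refine pv_supp hH h' u v fun h2 => hu ?_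
      rw [h1, h2, sub_zero]
    · exact pv_supp hH h u v h1
  · rw [sum_sub_distrib]
    unfold pv
    rw [sum_add_distrib, sum_add_distrib, av_row q a c h.ac, av_row q d b h.db, av_row q' a' c' h'.ac,
      av_row q' d' b' h'.db, e1, e3, e5, e7, pow_par p1, pow_par p2, pow_par p3, pow_par p4, sub_self]
  · have h1 := pv_cut H L q a c d b h T hT
    have h2 := pv_cut H L q' a' c' d' b' h' T hT
    rw [e1, e2, e3, e4, e5, e6, e7, e8, pow_par p1, pow_par p2, pow_par p3, pow_par p4, ← h2] at h1
    unfold ict at h1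
    simp only [sum_sub_distrib]
    rw [h1, sub_self]

end

end QIS
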